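import Mathlib

set_option linter.all false
set_option autoImplicit false

/-!
# Counting tools for MP_ce98d8_co: union bounds, product spaces, binomials
-/

namespace Pool.Agent.helper24.TG

open Finset

/-- union bound -/
theorem ub {α ι : Type} (Ω : Finset α) (I : Finset ι) (bad : ι → α → Prop)
    [∀ i, DecidablePred (bad i)] [DecidablePred (fun v => ∃ i ∈ I, bad i v)] (a b : ℕ)
    (hI : I.card ≤ 2 ^ a) (h : ∀ i ∈ I, (Ω.filter (bad i)).card * 2 ^ (a + b) ≤ Ω.card) :
    (Ω.filter (fun v => ∃ i ∈ I, bad i v)).card * 2 ^ b ≤ Ω.card := by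
  classical
  have h1 : (Ω.filter (fun v => ∃ i ∈ I, bad i v)).card ≤ ∑ i ∈ I, (Ω.filter (bad i)).card := by
    refine (Finset.card_le_card ?_).trans Finset.card_biUnion_le
    intro v hv
    simp only [Finset.mem_filter] at hv
    obtain ⟨hv, i, hi, hb⟩ := hv
    exact Finset.mem_biUnion.mpr ⟨i, hi, by simp [hv, hb]⟩
  have h2 : (∑ i ∈ I, (Ω.filter (bad i)).card) * 2 ^ (a + b) ≤ 2 ^ a * Ω.card := by
    rw [Finset.sum_mul]
    calc ∑ i ∈ I, (Ω.filter (bad i)).card * 2 ^ (a + b) ≤ ∑ i ∈ I, Ω.card :=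
          Finset.sum_le_sum h
      _ = I.card * Ω.card := by simp
      _ ≤ _ := Nat.mul_le_mul_right _ hI
  have h3 : 2 ^ a * ((Ω.filter (fun v => ∃ i ∈ I, bad i v)).card * 2 ^ b) ≤ 2 ^ a * Ω.card := by
    calc 2 ^ a * ((Ω.filter (fun v => ∃ i ∈ I, bad i v)).card * 2 ^ b)
        = (Ω.filter (fun v => ∃ i ∈ I, bad i v)).card * 2 ^ (a + b) := by rw [pow_add]; ring
      _ ≤ _ := Nat.mul_le_mul_right _ h1
      _ ≤ _ := h2
  exact Nat.le_of_mul_le_mul_left h3 (by positivity)

/-- union bound over nonempty sets, the failure probability decays with the size of the set -/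
theorem ub_sets {α X : Type} [Fintype X] (Ω : Finset α) (Lam b : ℕ)
    (hX : Fintype.card X ≤ 2 ^ Lam) (bad : Finset X → α → Prop)
    [∀ i, DecidablePred (bad i)] [DecidablePred (fun v => ∃ S : Finset X, S.Nonempty ∧ bad S v)]
    (h : ∀ S : Finset X, S.Nonempty →
      (Ω.filter (bad S)).card * 2 ^ ((Lam + 1) * S.card + b) ≤ Ω.card) :
    (Ω.filter (fun v => ∃ S : Finset X, S.Nonempty ∧ bad S v)).card * 2 ^ b ≤ Ω.card := by
  classical
  set n := Fintype.card X with hn
  have h1 : (Ω.filter (fun v => ∃ S : Finset X, S.Nonempty ∧ bad S v)).card ≤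
      ∑ S ∈ (Finset.univ : Finset (Finset X)).filter (fun S => S.Nonempty),
        (Ω.filter (bad S)).card := by
    refine (Finset.card_le_card ?_).trans Finset.card_biUnion_le
    intro v hv
    simp only [Finset.mem_filter] at hv
    obtain ⟨hv, S, hS, hb⟩ := hv
    exact Finset.mem_biUnion.mpr ⟨S, by simp [hS], by simp [hv, hb]⟩
  -- real numbers
  have h2 : ∀ S ∈ (Finset.univ : Finset (Finset X)).filter (fun S => S.Nonempty),
      ((Ω.filter (bad S)).card : ℝ) ≤ (Ω.card / 2 ^ b : ℝ) * ((1 / 2 ^ (Lam + 1)) ^ S.card) := by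
    intro S hS
    have hS' : S.Nonempty := (Finset.mem_filter.mp hS).2
    have := h S hS'
    have h' : ((Ω.filter (bad S)).card : ℝ) * 2 ^ ((Lam + 1) * S.card + b) ≤ Ω.card := by
      exact_mod_cast this
    rw [pow_add, pow_mul] at h'
    have hp : (0 : ℝ) < (2 ^ (Lam + 1)) ^ S.card * 2 ^ b := by positivity
    rw [← le_div_iff₀ hp] at h'
    refine h'.trans (le_of_eq ?_)
    rw [one_div, inv_pow]
    field_simp
  have h3 : ∑ S ∈ (Finset.univ : Finset (Finset X)).filter (fun S => S.Nonempty),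
      ((1 : ℝ) / 2 ^ (Lam + 1)) ^ S.card ≤ 1 := by
    have e1 : ∑ S : Finset X, ((1 : ℝ) / 2 ^ (Lam + 1)) ^ S.card =
        ((1 : ℝ) / 2 ^ (Lam + 1) + 1) ^ n := by
      rw [hn, ← Finset.card_univ (α := X), ← Finset.sum_pow_mul_eq_add_pow]
      simp
    have e2 : ∑ S : Finset X, ((1 : ℝ) / 2 ^ (Lam + 1)) ^ S.card =
        1 + ∑ S ∈ (Finset.univ : Finset (Finset X)).filter (fun S => S.Nonempty),
          ((1 : ℝ) / 2 ^ (Lam + 1)) ^ S.card := by
      rw [← Finset.sum_filter_not_add_sum_filter _ (fun S : Finset X => S.Nonempty)]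
      congr 1
      have : (Finset.univ : Finset (Finset X)).filter (fun S => ¬ S.Nonempty) = {∅} := by
        ext S
        simp [Finset.not_nonempty_iff_eq_empty]
      rw [this]
      simp
    have e3 : ((1 : ℝ) / 2 ^ (Lam + 1) + 1) ^ n ≤ 2 := by
      have hx : ((1 : ℝ) / 2 ^ (Lam + 1) + 1) ≤ Real.exp (1 / 2 ^ (Lam + 1)) :=
        Real.add_one_le_exp _
      calc ((1 : ℝ) / 2 ^ (Lam + 1) + 1) ^ n ≤ (Real.exp (1 / 2 ^ (Lam + 1))) ^ n :=
            pow_le_pow_left₀ (by positivity) hx _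
        _ = Real.exp (n * (1 / 2 ^ (Lam + 1))) := by rw [← Real.exp_nat_mul]
        _ ≤ Real.exp (1 / 2) := by
            apply Real.exp_le_exp.mpr
            have : (n : ℝ) ≤ 2 ^ Lam := by exact_mod_cast hX
            rw [pow_succ]
            rw [mul_one_div, div_le_div_iff₀ (by positivity) (by norm_num)]
            nlinarith
        _ ≤ 2 := by
            have : Real.exp (1/2) ≤ 2 := by
              have h4 : Real.exp 1 < 2.7182818286 := Real.exp_one_lt_d9
              have h5 : Real.exp (1/2) * Real.exp (1/2) = Real.exp 1 := by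
                rw [← Real.exp_add]; norm_num
              nlinarith [Real.exp_pos (1/2)]
            exact this
    rw [e1] at e2
    linarith
  have h4 : ((Ω.filter (fun v => ∃ S : Finset X, S.Nonempty ∧ bad S v)).card : ℝ) ≤
      Ω.card / 2 ^ b := by
    calc ((Ω.filter (fun v => ∃ S : Finset X, S.Nonempty ∧ bad S v)).card : ℝ)
        ≤ ∑ S ∈ (Finset.univ : Finset (Finset X)).filter (fun S => S.Nonempty),
          ((Ω.filter (bad S)).card : ℝ) := by exact_mod_cast h1
      _ ≤ ∑ S ∈ (Finset.univ : Finset (Finset X)).filter (fun S => S.Nonempty),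
          (Ω.card / 2 ^ b : ℝ) * ((1 / 2 ^ (Lam + 1)) ^ S.card) := Finset.sum_le_sum h2
      _ = (Ω.card / 2 ^ b : ℝ) * ∑ S ∈ (Finset.univ : Finset (Finset X)).filter
          (fun S => S.Nonempty), ((1 : ℝ) / 2 ^ (Lam + 1)) ^ S.card := by rw [Finset.mul_sum]
      _ ≤ (Ω.card / 2 ^ b : ℝ) * 1 := mul_le_mul_of_nonneg_left h3 (by positivity)
      _ = _ := mul_one _
  rw [le_div_iff₀ (by positivity)] at h4
  exact_mod_cast h4

/-- binomial coefficients -/
theorem choose_mul_pow_le (n m : ℕ) : n.choose m * m ^ m ≤ (3 * n) ^ m := by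
  have h1 : (n.choose m : ℝ) ≤ n ^ m / m.factorial := Nat.choose_le_pow_div m n
  have h2 : (m : ℝ) ^ m / m.factorial ≤ Real.exp m :=
    Real.pow_div_factorial_le_exp m (by positivity) m
  have h3 : Real.exp m ≤ 3 ^ m := by
    have : Real.exp 1 ≤ 3 := by
      have h4 : Real.exp 1 < 2.7182818286 := Real.exp_one_lt_d9
      linarith
    calc Real.exp m = (Real.exp 1) ^ m := by rw [← Real.exp_nat_mul]; simp
      _ ≤ 3 ^ m := pow_le_pow_left₀ (Real.exp_pos _).le this _
  have h4 : ((n.choose m * m ^ m : ℕ) : ℝ) ≤ ((3 * n) ^ m : ℕ) := by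
    push_cast
    calc (n.choose m : ℝ) * m ^ m ≤ (n ^ m / m.factorial) * m ^ m :=
          mul_le_mul_of_nonneg_right h1 (by positivity)
      _ = n ^ m * (m ^ m / m.factorial) := by ring
      _ ≤ n ^ m * 3 ^ m := mul_le_mul_of_nonneg_left (h2.trans h3) (by positivity)
      _ = (3 * n) ^ m := by rw [mul_pow]; ring
  exact_mod_cast h4

open Classical in
/-- independence of the copies -/
theorem prod_bad {α : Type} (Ω : Finset α) (C b K : ℕ) (bad : Fin C → α → Prop)
    (h : ∀ j, (Ω.filter (bad j)).card * K ≤ Ω.card) :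
    ((Fintype.piFinset (fun _ : Fin C => Ω)).filter (fun φ =>
      b ≤ ((Finset.univ : Finset (Fin C)).filter (fun j => bad j (φ j))).card)).card * K ^ b ≤
      C.choose b * Ω.card ^ C := by
  have h2 : ∀ J ∈ (Finset.univ : Finset (Fin C)).powersetCard b,
      (Fintype.piFinset (fun j => if j ∈ J then Ω.filter (bad j) else Ω)).card * K ^ b ≤
        Ω.card ^ C := by
    intro J hJ
    have hJb := (Finset.mem_powersetCard.mp hJ).2
    rw [Fintype.card_piFinset]
    calc (∏ j, (if j ∈ J then Ω.filter (bad j) else Ω).card) * K ^ b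
        = (∏ j, (if j ∈ J then Ω.filter (bad j) else Ω).card) *
            ∏ j, (if j ∈ J then K else 1) := by
          congr 1
          rw [Finset.prod_ite_mem, Finset.univ_inter, Finset.prod_const, hJb]
      _ = ∏ j, ((if j ∈ J then Ω.filter (bad j) else Ω).card * (if j ∈ J then K else 1)) := by
          rw [Finset.prod_mul_distrib]
      _ ≤ ∏ j : Fin C, Ω.card := by
          refine Finset.prod_le_prod' ?_
          intro j _
          by_cases hj : j ∈ J
          · simpa [hj] using h j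
          · simp [hj]
      _ = Ω.card ^ C := by simp
  have h3 : (∑ J ∈ (Finset.univ : Finset (Fin C)).powersetCard b,
        (Fintype.piFinset (fun j => if j ∈ J then Ω.filter (bad j) else Ω)).card) * K ^ b ≤
        C.choose b * Ω.card ^ C := by
    calc (∑ J ∈ (Finset.univ : Finset (Fin C)).powersetCard b,
        (Fintype.piFinset (fun j => if j ∈ J then Ω.filter (bad j) else Ω)).card) * K ^ b
      _ = ∑ J ∈ (Finset.univ : Finset (Fin C)).powersetCard b,
        (Fintype.piFinset (fun j => if j ∈ J then Ω.filter (bad j) else Ω)).card * K ^ b := by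
        rw [Finset.sum_mul]
      _ ≤ ∑ J ∈ (Finset.univ : Finset (Fin C)).powersetCard b, Ω.card ^ C := Finset.sum_le_sum h2
      _ = C.choose b * Ω.card ^ C := by
        rw [Finset.sum_const, Finset.card_powersetCard]; simp
  have key : ∀ F : Finset (Fin C → α), F ⊆ ((Finset.univ : Finset (Fin C)).powersetCard b).biUnion
        (fun J => Fintype.piFinset (fun j => if j ∈ J then Ω.filter (bad j) else Ω)) →
        F.card * K ^ b ≤ C.choose b * Ω.card ^ C := fun F hF =>
    (Nat.mul_le_mul_right _ ((Finset.card_le_card hF).trans Finset.card_biUnion_le)).trans h3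
  refine key _ ?_
  intro φ hφ'
  have hφ : ∀ j, φ j ∈ Ω := Fintype.mem_piFinset.mp (Finset.mem_filter.mp hφ').1
  have hb : b ≤ ((Finset.univ : Finset (Fin C)).filter (fun j => bad j (φ j))).card :=
    (Finset.mem_filter.mp hφ').2
  obtain ⟨J, hJ, hJb⟩ := Finset.exists_subset_card_eq hb
  refine Finset.mem_biUnion.mpr ⟨J, Finset.mem_powersetCard.mpr ⟨Finset.subset_univ _, hJb⟩, ?_⟩
  rw [Fintype.mem_piFinset]
  intro j
  by_cases hj : j ∈ J
  · have := (Finset.mem_filter.mp (hJ hj)).2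
    simp [hj, hφ j, this]
  · simp [hj, hφ j]

open Classical in
/-- a property of one copy that has to hold for all copies -/
theorem prod_one {α : Type} (Ω : Finset α) (C K : ℕ) (bad : Fin C → α → Prop)
    (h : ∀ j, (Ω.filter (bad j)).card * K ≤ Ω.card) :
    ((Fintype.piFinset (fun _ : Fin C => Ω)).filter (fun φ => ∃ j, bad j (φ j))).card * K ≤
      C * Ω.card ^ C := by
  have := prod_bad Ω C 1 K bad h
  simp only [Nat.choose_one_right, pow_one] at this
  refine le_trans (Nat.mul_le_mul_right _ (Finset.card_le_card ?_)) this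
  intro φ hφ
  simp only [Finset.mem_filter] at hφ ⊢
  refine ⟨hφ.1, ?_⟩
  obtain ⟨j, hj⟩ := hφ.2
  exact Finset.card_pos.mpr ⟨j, by simp [hj]⟩

/-- `(1 - 1/D)^(D Lam) < 2^(-Lam)` -/
theorem sub_one_pow_lt (D f Lam : ℕ) (hD : 1 ≤ D) (hLam : 1 ≤ Lam) (hf : D * Lam ≤ f) :
    (D - 1) ^ f * 2 ^ Lam < D ^ f := by
  have hD0 : (0 : ℝ) < D := by exact_mod_cast hD
  have h0 : ((D - 1 : ℕ) : ℝ) = D - 1 := by push_cast [hD]; ring
  have h1 : ((D : ℝ) - 1) / D ≤ Real.exp (-(1 / D)) := by
    have := Real.add_one_le_exp (-(1 / (D : ℝ)))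
    calc ((D : ℝ) - 1) / D = -(1 / (D : ℝ)) + 1 := by field_simp; ring
      _ ≤ _ := this
  have h2 : (((D : ℝ) - 1) / D) ^ f ≤ Real.exp (-(Lam : ℝ)) := by
    have hn : (0 : ℝ) ≤ ((D : ℝ) - 1) / D := by
      apply div_nonneg _ hD0.le
      have : (1 : ℝ) ≤ D := by exact_mod_cast hD
      linarith
    calc (((D : ℝ) - 1) / D) ^ f ≤ (Real.exp (-(1 / D))) ^ f := pow_le_pow_left₀ hn h1 _
      _ = Real.exp (f * (-(1 / D))) := by rw [← Real.exp_nat_mul]
      _ ≤ _ := by
        apply Real.exp_le_exp.mpr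
        have : (D : ℝ) * Lam ≤ f := by exact_mod_cast hf
        have : (Lam : ℝ) ≤ f / D := by rw [le_div_iff₀ hD0]; linarith
        have e : (f : ℝ) * (-(1 / D)) = -(f / D) := by ring
        rw [e]
        linarith
  have h3 : Real.exp (-(Lam : ℝ)) < (1 / 2) ^ Lam := by
    have : Real.exp (-1) < 1 / 2 := by
      have h4 : (2.7182818283 : ℝ) < Real.exp 1 := Real.exp_one_gt_d9
      rw [Real.exp_neg]
      rw [one_div]
      exact inv_strictAnti₀ (by norm_num) (by linarith)
    calc Real.exp (-(Lam : ℝ)) = (Real.exp (-1)) ^ Lam := by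
          rw [← Real.exp_nat_mul]; simp
      _ < _ := pow_lt_pow_left₀ this (Real.exp_pos _).le (by omega)
  have h4 : (((D : ℝ) - 1) / D) ^ f < (1 / 2) ^ Lam := lt_of_le_of_lt h2 h3
  rw [div_pow, div_pow, one_pow, div_lt_div_iff₀ (by positivity) (by positivity), one_mul] at h4
  have h5 : (((D - 1) ^ f * 2 ^ Lam : ℕ) : ℝ) < (D ^ f : ℕ) := by
    push_cast [h0]
    exact h4
  exact_mod_cast h5

end Pool.Agent.helper24.TG
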