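import Pool.Agent.helper24.TG.Geo

set_option linter.all false
set_option autoImplicit false

/-!
# More counting tools (MP_ce98d8_co)
-/

namespace Pool.Agent.helper24.TG

open Finset Classical

/-- number of sets with at most `n` elements -/
theorem card_small_sets (X : Type) [Fintype X] [DecidableEq X] (n : ℕ) :
    ((Finset.univ : Finset (Finset X)).filter (fun S => S.card ≤ n)).card ≤
      (Fintype.card X + 1) ^ n := by
  have h : ∀ S : Finset X, S.card ≤ n → ∃ f : Fin n → Option X,
      ∀ x, x ∈ S ↔ ∃ i, f i = some x := by
    intro S hS
    let e := S.equivFin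
    refine ⟨fun i => if h : i.val < S.card then some (e.symm ⟨i.val, h⟩ : X) else none, ?_⟩
    intro x
    constructor
    · intro hx
      refine ⟨⟨(e ⟨x, hx⟩).val, lt_of_lt_of_le (e ⟨x, hx⟩).isLt hS⟩, ?_⟩
      simp
    · rintro ⟨i, hi⟩
      by_cases h : i.val < S.card
      · simp only [h, dite_true, Option.some.injEq] at hi
        rw [← hi]
        exact (e.symm ⟨i.val, h⟩).2
      · simp [h] at hi
  choose! f hf using h
  have hcard : Fintype.card (Fin n → Option X) = (Fintype.card X + 1) ^ n := by
    simp [Fintype.card_option]
  rw [← hcard, ← Finset.card_univ]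
  refine Finset.card_le_card_of_injOn f (fun S _ => Finset.mem_univ _) ?_
  intro S hS S' hS' hff
  have h1 := hf S (by simpa using hS)
  have h2 := hf S' (by simpa using hS')
  ext x
  rw [h1 x, h2 x, hff]

/-- number of sets with exactly `n` elements -/
theorem card_sets_eq (X : Type) [Fintype X] [DecidableEq X] (n : ℕ) :
    ((Finset.univ : Finset (Finset X)).filter (fun S => S.card = n)).card =
      (Fintype.card X).choose n := by
  rw [← Finset.card_univ, ← Finset.card_powersetCard]
  congr 1
  ext S
  simp [Finset.mem_powersetCard]

end Pool.Agent.helper24.TG
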