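import Pool.Agent.helper11.Tight.Defs

set_option linter.all false
set_option autoImplicit false

/-!
# Tight graphs with exponent one half: definitions (MP_ce98d8_co)

Proof text: team store, `MP_ce98d8_co_proof_helper24.md`.
-/

namespace Pool.Agent.helper24.TG

open Finset Classical
open Pool.Agent.helper11.Tight (nb eo mem_nb)

/-! ### numbers -/

/-- the numbers of one step and the numeric conditions -/
structure Par where
  c : ℕ
  Lam : ℕ
  B : ℕ
  q : ℕ
  sq : ℕ
  C : ℕ
  N : ℕ
  d : ℕ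
  w : ℕ
  K : ℕ
  E : ℕ
  L : ℕ
  tau : ℕ
  La : ℕ
  m : ℕ
  kT : ℕ
  hLog : 10 ^ 6 * Lam ≤ c
  hLam : 1 ≤ Lam
  hq : q = sq ^ 2
  hsq : ∃ h, sq = 2 ^ h
  hBp : ∃ b, B = 2 ^ b
  hw : q ^ 2 = w * N
  hCe : Even C
  hC1 : c ^ 3 * q * d ≤ C * N
  hC2 : C * N ≤ 2 * c ^ 3 * q * d
  hd : 100 ≤ d
  hN : 1 ≤ N
  hL : 1 ≤ L
  htau : 1 ≤ tau
  hLa : 1 ≤ La
  hK : K + 1 ≤ c ^ kT
  N1 : c ^ 10 * (K + 1) ≤ w
  N2 : (c * B) ^ 100 * L * (K + 1) * N ≤ q * d
  N3 : c ^ (kT + 12) * tau * sq * d ≤ N
  N3' : (c * B) ^ 100 * d ≤ N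
  N4 : La * c ^ (kT + 12) ≤ q
  N5 : c ^ 6 * d ≤ B * q
  N7 : c ^ 200 ≤ B
  N7' : c ^ (kT + 15) ≤ B
  N8 : (c * B) ^ 100 ≤ E
  -- all sizes are at most `2 ^ Lam`
  s1 : 4 * B * q ^ 2 * C ≤ 2 ^ Lam
  s2 : N ≤ 2 ^ Lam
  s3 : E ≤ 2 ^ Lam
  s4 : m ≤ 2 ^ Lam

namespace Par

/-- `q d / N` -/
noncomputable def rho (p : Par) : ℝ := (p.q : ℝ) * p.d / p.N

/-- the degree of the new graph -/
def k (p : Par) : ℕ := p.q * (p.C - 1) + (p.B - 1) * (p.w * p.d)

/-- the size threshold of the mixing property -/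
def W0 (p : Par) : ℕ := p.c ^ 2 * p.B * p.q * p.sq

/-- number of steps in the pair containers -/
def fH (p : Par) : ℕ := 10 ^ 5 * p.B * p.q * p.Lam + 1

/-- number of steps in the counting of label vectors -/
def f1 (p : Par) : ℕ := p.L * p.N * p.Lam / p.d + 1

/-- number of steps in the labelled containers -/
def fb (p : Par) : ℕ := 2 * p.c * p.La * p.Lam

/-- number of steps in the containers of `T` -/
def fT (p : Par) : ℕ := 2 * p.La * p.Lam

/-- exponents -/
def x0 (p : Par) : ℕ := p.kT + 1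
def x1 (p : Par) : ℕ := p.kT + 5

/-- the half of a copy -/
def hf (p : Par) (j : Fin p.C) : Bool := decide (j.val < p.C / 2)

end Par

/-! ### the graph `T` -/

/-- `U` is an independent set of `T` -/
def IndT {V : Type} (T : SimpleGraph V) (U : Finset V) : Prop := ∀ a ∈ U, ∀ b ∈ U, ¬ T.Adj a b

/-- the induction hypothesis: a tight graph with stability, mixing and saturation -/
structure TS (m N d K E L tau La : ℕ) {V : Type} [Fintype V] [DecidableEq V]
    (T : SimpleGraph V) (MM : Finset (Finset V)) : Prop where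
  card_V : Fintype.card V = N
  reg : ∀ v, (nb T v).card = d
  tri : ∀ a b c, T.Adj a b → T.Adj b c → ¬ T.Adj a c
  card_MM : MM.card ≤ m
  card_M : ∀ M ∈ MM, M.card = d
  stab : ∀ U : Finset V, IndT T U → ∃ M ∈ MM, (U \ M).card + K * U.card ≤ K * d
  mix : ∀ Y Z : Finset V, N ≤ E * Y.card → N ≤ E * Z.card →
    Y.card * Z.card * d ≤ N * L * eo T Y Z
  sat : ∀ Y : Finset V, tau * d ≤ Y.card → ∃ y ∈ Y, Y.card ≤ La * (nb T y ∩ Y).card

/-- the induction hypothesis, as a statement about numbers -/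
def State (m N d K E L tau La : ℕ) : Prop :=
  ∃ (V : Type) (_ : Fintype V) (_ : DecidableEq V) (T : SimpleGraph V) (MM : Finset (Finset V)),
    TS m N d K E L tau La T MM

/-- the induction hypothesis for the numbers of a step -/
abbrev TSp (p : Par) {V : Type} [Fintype V] [DecidableEq V]
    (T : SimpleGraph V) (MM : Finset (Finset V)) : Prop :=
  TS p.m p.N p.d p.K p.E p.L p.tau p.La T MM

/-! ### voltage spaces -/

section VS

variable {O A : Type} [Fintype O] [DecidableEq O] [Fintype A] [DecidableEq A] [AddCommGroup A]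

/-- the valid voltages -/
noncomputable def Om (A : Type) [Fintype A] [DecidableEq A] [AddCommGroup A]
    (TT : Finset (Finset O)) : Finset (O → A) :=
  Finset.univ.filter (fun v => ∀ S ∈ TT, ∑ o ∈ S, v o ≠ 0)

@[simp] theorem mem_Om {TT : Finset (Finset O)} {v : O → A} :
    v ∈ Om A TT ↔ ∀ S ∈ TT, ∑ o ∈ S, v o ≠ 0 := by
  simp [Om]

/-- the function `f` does not depend on the coordinate `o` -/
def Free {β : Type} (f : (O → A) → β) (o : O) : Prop :=
  ∀ (v : O → A) (a : A), f (Function.update v o a) = f v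

/-- constraint systems: all members have one or three elements, every orbit is in at most
`D` members -/
structure CS (TT : Finset (Finset O)) (D : ℕ) : Prop where
  odd : ∀ S ∈ TT, S.card = 1 ∨ S.card = 3
  deg : ∀ o, (TT.filter (fun S => o ∈ S)).card ≤ D

/-- odd support of a triple -/
def osup (a b c : O) : Finset O := symmDiff {a} (symmDiff {b} {c})

end VS

/-! ### the host plane -/

/-- projective plane of order `q` (lines are named by points) with two polarities
(`false`: same half, `true`: different halves), an affine part, orbits of flags and constraints -/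
structure Host (P O : Type) [Fintype P] [DecidableEq P] [Fintype O] [DecidableEq O] (q : ℕ) where
  inc : P → P → Prop
  linf : P
  pi : Bool → P → P
  orb : P → P → O
  TT : Finset (Finset O)
  fixL : Finset P
  card_P : Fintype.card P = q ^ 2 + q + 1
  card_line : ∀ l, (Finset.univ.filter (fun x => inc x l)).card = q + 1
  card_pt : ∀ x, (Finset.univ.filter (fun l => inc x l)).card = q + 1
  join : ∀ x y, x ≠ y → ∃ l, inc x l ∧ inc y l
  meet : ∀ l m, l ≠ m → ∃ x, inc x l ∧ inc x m
  uniq : ∀ x y l m, x ≠ y → inc x l → inc y l → inc x m → inc y m → l = m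
  pi_pi : ∀ i x, pi i (pi i x) = x
  pi_inc : ∀ i x y, inc x (pi i y) → inc y (pi i x)
  pi_ne : pi false linf ≠ pi true linf
  pi_linf : ∀ i, inc (pi i linf) linf
  orb_pi : ∀ i x l, inc x l → orb (pi i l) (pi i x) = orb x l
  orb_le : ∀ o, (Finset.univ.filter (fun f : P × P => inc f.1 f.2 ∧ orb f.1 f.2 = o)).card ≤ 6
  card_fixL : fixL.card ≤ 3
  fixL_spec : ∀ l, l ∉ fixL → ∀ x y, inc x l → inc y l → orb x l = orb y l → x = y
  fixF : ∀ l, (Finset.univ.filter (fun x => inc x l ∧ ∃ m, m ≠ l ∧ inc x m ∧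
    orb x m = orb x l)).card ≤ 6
  cs : CS TT 40
  tt1 : ∀ x1 x2 x3, inc x1 (pi false x2) → inc x2 (pi false x3) → inc x1 (pi false x3) →
    osup (orb x1 (pi false x2)) (orb x2 (pi false x3)) (orb x1 (pi false x3)) ∈ TT
  tt2 : ∀ x1 x2 x3, inc x1 (pi true x2) → inc x2 (pi false x3) → inc x1 (pi true x3) →
    osup (orb x1 (pi true x2)) (orb x2 (pi false x3)) (orb x1 (pi true x3)) ∈ TT
  tt_deg : (Finset.univ.filter (fun f : P × P => inc f.1 f.2 ∧ {orb f.1 f.2} ∈ TT)).card ≤
    1000 * (q + 1)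

section Geo

variable {P O A V : Type} [Fintype P] [DecidableEq P] [Fintype O] [DecidableEq O]
  [Fintype A] [DecidableEq A] [AddCommGroup A] {q : ℕ}

/-- the point `x` lies on the lifted line `L` -/
def onL (H : Host P O q) (v : O → A) (L x : P × A) : Prop :=
  H.inc x.1 L.1 ∧ x.2 + L.2 = v (H.orb x.1 L.1)

/-- the points of a lifted line -/
noncomputable def lin (H : Host P O q) (v : O → A) (L : P × A) : Finset (P × A) :=
  Finset.univ.filter (fun x => onL H v L x)

@[simp] theorem mem_lin {H : Host P O q} {v : O → A} {L x : P × A} :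
    x ∈ lin H v L ↔ onL H v L x := by simp [lin]

/-- the name of the lifted line `N_i(z)` -/
def NL (H : Host P O q) (i : Bool) (z : P × A) : P × A := (H.pi i z.1, z.2)

/-- the neighbourhood `N_i(z)` -/
noncomputable def Nb (H : Host P O q) (v : O → A) (i : Bool) (z : P × A) : Finset (P × A) :=
  lin H v (NL H i z)

@[simp] theorem mem_Nb {H : Host P O q} {v : O → A} {i : Bool} {z x : P × A} :
    x ∈ Nb H v i z ↔ onL H v (NL H i z) x := by simp [Nb]

/-- neighbourhood of a set -/
noncomputable def NbS (H : Host P O q) (v : O → A) (i : Bool) (E : Finset (P × A)) :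
    Finset (P × A) := E.biUnion (Nb H v i)

@[simp] theorem mem_NbS {H : Host P O q} {v : O → A} {i : Bool} {E : Finset (P × A)}
    {x : P × A} : x ∈ NbS H v i E ↔ ∃ y ∈ E, onL H v (NL H i y) x := by simp [NbS]

/-- collinear points -/
def col (H : Host P O q) (v : O → A) (x y : P × A) : Prop :=
  x.1 ≠ y.1 ∧ ∃ L, onL H v L x ∧ onL H v L y

/-- the points collinear with `x` -/
noncomputable def Gam (H : Host P O q) (v : O → A) (x : P × A) : Finset (P × A) :=
  Finset.univ.filter (fun y => col H v x y)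

@[simp] theorem mem_Gam {H : Host P O q} {v : O → A} {x y : P × A} :
    y ∈ Gam H v x ↔ col H v x y := by simp [Gam]

/-- the ball -/
noncomputable def Ball (H : Host P O q) (v : O → A) (z : P × A) : Finset (P × A) :=
  insert z (Gam H v z)

/-- the affine points -/
noncomputable def XA (A : Type) [Fintype A] [DecidableEq A] (H : Host P O q) : Finset (P × A) :=
  Finset.univ.filter (fun x => ¬ H.inc x.1 H.linf)

@[simp] theorem mem_XA {H : Host P O q} {x : P × A} : x ∈ XA A H ↔ ¬ H.inc x.1 H.linf := by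
  simp [XA]

/-- the affine types -/
noncomputable def PA (H : Host P O q) : Finset P :=
  Finset.univ.filter (fun t => ¬ H.inc t H.linf)

@[simp] theorem mem_PA {H : Host P O q} {t : P} : t ∈ PA H ↔ ¬ H.inc t H.linf := by
  simp [PA]

/-- the lifted lines meeting `E` -/
noncomputable def LLs (H : Host P O q) (v : O → A) (E : Finset (P × A)) : Finset (P × A) :=
  Finset.univ.filter (fun L => ∃ x ∈ E, onL H v L x)

/-- the points with label in `Z` -/
noncomputable def labS (A : Type) [Fintype A] [DecidableEq A] [DecidableEq V] (φ : P → V)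
    (Z : Finset V) : Finset (P × A) :=
  Finset.univ.filter (fun x => φ x.1 ∈ Z)

@[simp] theorem mem_labS [DecidableEq V] {φ : P → V} {Z : Finset V} {x : P × A} :
    x ∈ labS A φ Z ↔ φ x.1 ∈ Z := by simp [labS]

/-- number of pairs `(x, y)` in `S × W` with `y ∈ N_i(x)` -/
noncomputable def eH (H : Host P O q) (v : O → A) (i : Bool) (S W : Finset (P × A)) : ℕ :=
  ((S ×ˢ W).filter (fun p => p.2 ∈ Nb H v i p.1)).card

/-- the centre of a lifted line -/
def cen (H : Host P O q) (i : Bool) (L : P × A) : P × A := (H.pi i L.1, L.2)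

/-- proper centres -/
def Proper (H : Host P O q) (z : P × A) : Prop := ∀ i, H.pi i z.1 ≠ H.linf

/-- `S` is independent for the own adjacency of a copy with labelling `φ` -/
def FInd (H : Host P O q) (v : O → A) (T : SimpleGraph V) (φ : P → V) (S : Finset (P × A)) :
    Prop := ∀ x ∈ S, ∀ y ∈ S, T.Adj (φ x.1) (φ y.1) → col H v x y

end Geo

end Pool.Agent.helper24.TG
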