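import Pool.Agent.helper24.TG.Props
import Pool.Agent.helper24.TG.Basic

set_option linter.all false
set_option autoImplicit false

/-!
# The lifted geometry (MP_ce98d8_co): basic lemmas
-/

namespace Pool.Agent.helper24.TG

open Finset Classical
open Pool.Agent.helper11.Tight (nb eo mem_nb)

section two

variable {O A : Type} [Fintype O] [DecidableEq O] [Fintype A] [DecidableEq A] [AddCommGroup A]

theorem neg_of_two (h2 : ∀ a : A, a + a = 0) (a : A) : -a = a :=
  neg_eq_of_add_eq_zero_left (h2 a)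

theorem sub_of_two (h2 : ∀ a : A, a + a = 0) (a b : A) : a - b = a + b := by
  rw [sub_eq_add_neg, neg_of_two h2]

theorem sum_symmDiff (h2 : ∀ a : A, a + a = 0) (v : O → A) (s t : Finset O) :
    ∑ o ∈ symmDiff s t, v o = ∑ o ∈ s, v o + ∑ o ∈ t, v o := by
  have e1 : ∑ o ∈ s, v o = ∑ o ∈ s \ t, v o + ∑ o ∈ s ∩ t, v o := by
    rw [← Finset.sum_union (Finset.disjoint_sdiff_inter s t), Finset.sdiff_union_inter]
  have e2 : ∑ o ∈ t, v o = ∑ o ∈ t \ s, v o + ∑ o ∈ s ∩ t, v o := by
    rw [Finset.inter_comm s t, ← Finset.sum_union (Finset.disjoint_sdiff_inter t s),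
      Finset.sdiff_union_inter]
  have e3 : ∑ o ∈ symmDiff s t, v o = ∑ o ∈ s \ t, v o + ∑ o ∈ t \ s, v o := by
    rw [symmDiff_def, Finset.sup_eq_union]
    exact Finset.sum_union (Finset.disjoint_of_subset_right Finset.sdiff_subset
      (Finset.sdiff_disjoint))
  rw [e1, e2, e3]
  have := h2 (∑ o ∈ s ∩ t, v o)
  calc ∑ o ∈ s \ t, v o + ∑ o ∈ t \ s, v o
      = ∑ o ∈ s \ t, v o + ∑ o ∈ t \ s, v o + (∑ o ∈ s ∩ t, v o + ∑ o ∈ s ∩ t, v o) := by
        rw [this, add_zero]
    _ = _ := by abel

theorem sum_osup (h2 : ∀ a : A, a + a = 0) (v : O → A) (a b c : O) :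
    ∑ o ∈ osup a b c, v o = v a + v b + v c := by
  rw [osup, sum_symmDiff h2, sum_symmDiff h2]
  simp [add_assoc]

end two

section Geo

variable {P O A V : Type} [Fintype P] [DecidableEq P] [Fintype O] [DecidableEq O]
  [Fintype A] [DecidableEq A] [AddCommGroup A] {q : ℕ}

/-! ### lifted lines -/

theorem onL_snd {H : Host P O q} {v : O → A} {L x : P × A} (h : onL H v L x) :
    x.2 = v (H.orb x.1 L.1) - L.2 := eq_sub_of_add_eq h.2

theorem onL_snd' {H : Host P O q} {v : O → A} {L x : P × A} (h : onL H v L x) :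
    L.2 = v (H.orb x.1 L.1) - x.2 := eq_sub_of_add_eq' h.2

theorem onL_mk {H : Host P O q} (v : O → A) {l t : P} (b : A) (h : H.inc t l) :
    onL H v (l, b) (t, v (H.orb t l) - b) := ⟨h, by simp⟩

theorem onL_mk' {H : Host P O q} (v : O → A) {l : P} (x : P × A) (h : H.inc x.1 l) :
    onL H v (l, v (H.orb x.1 l) - x.2) x := ⟨h, by simp⟩

/-- one point of a lifted line over every type -/
theorem onL_inj {H : Host P O q} {v : O → A} {L x y : P × A} (hx : onL H v L x)
    (hy : onL H v L y) (h : x.1 = y.1) : x = y := by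
  refine Prod.ext h ?_
  rw [onL_snd hx, onL_snd hy, h]

/-- one lifted line through a point over every line -/
theorem onL_inj' {H : Host P O q} {v : O → A} {L M x : P × A} (hL : onL H v L x)
    (hM : onL H v M x) (h : L.1 = M.1) : L = M := by
  refine Prod.ext h ?_
  rw [onL_snd' hL, onL_snd' hM, h]

theorem card_lin (H : Host P O q) (v : O → A) (L : P × A) : (lin H v L).card = q + 1 := by
  rw [← H.card_line L.1]
  refine Finset.card_bij (fun x _ => x.1) ?_ ?_ ?_
  · intro x hx
    simp only [mem_lin] at hx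
    simp [hx.1]
  · intro x hx y hy h
    simp only [mem_lin] at hx hy
    exact onL_inj hx hy h
  · intro t ht
    simp only [Finset.mem_filter, Finset.mem_univ, true_and] at ht
    exact ⟨(t, v (H.orb t L.1) - L.2), by simpa using onL_mk v L.2 ht, rfl⟩

theorem card_through (H : Host P O q) (v : O → A) (x : P × A) :
    (Finset.univ.filter (fun L : P × A => onL H v L x)).card = q + 1 := by
  rw [← H.card_pt x.1]
  refine Finset.card_bij (fun L _ => L.1) ?_ ?_ ?_
  · intro L hL
    simp only [Finset.mem_filter, Finset.mem_univ, true_and] at hL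
    simp [hL.1]
  · intro L hL M hM h
    simp only [Finset.mem_filter, Finset.mem_univ, true_and] at hL hM
    exact onL_inj' hL hM h
  · intro l hl
    simp only [Finset.mem_filter, Finset.mem_univ, true_and] at hl
    exact ⟨(l, v (H.orb x.1 l) - x.2), by simpa using onL_mk' v x hl, rfl⟩

/-- two points of different types are on at most one lifted line -/
theorem line_unique {H : Host P O q} {v : O → A} {L M x y : P × A} (hne : x.1 ≠ y.1)
    (h1 : onL H v L x) (h2 : onL H v L y) (h3 : onL H v M x) (h4 : onL H v M y) : L = M :=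
  onL_inj' h1 h3 (H.uniq x.1 y.1 L.1 M.1 hne h1.1 h2.1 h3.1 h4.1)

/-- two lifted lines have at most one common point -/
theorem meet_unique {H : Host P O q} {v : O → A} {L M x y : P × A} (hne : L ≠ M)
    (h1 : onL H v L x) (h2 : onL H v M x) (h3 : onL H v L y) (h4 : onL H v M y) : x = y := by
  by_cases h : x.1 = y.1
  · exact onL_inj h1 h3 h
  · exact absurd (line_unique h h1 h3 h2 h4) hne

/-! ### neighbourhoods -/

theorem onL_NL_comm {H : Host P O q} {v : O → A} {i : Bool} {z x : P × A} :
    onL H v (NL H i z) x ↔ onL H v (NL H i x) z := by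
  have key : ∀ a b : P × A, onL H v (NL H i a) b → onL H v (NL H i b) a := by
    intro a b h
    obtain ⟨h1, h2⟩ := h
    simp only [NL] at h1 h2
    refine ⟨H.pi_inc i _ _ h1, ?_⟩
    simp only [NL]
    have e := H.orb_pi i b.1 (H.pi i a.1) h1
    rw [H.pi_pi] at e
    rw [e, ← h2, add_comm]
  exact ⟨key z x, key x z⟩

theorem mem_Nb_comm {H : Host P O q} {v : O → A} {i : Bool} {z x : P × A} :
    x ∈ Nb H v i z ↔ z ∈ Nb H v i x := by
  rw [mem_Nb, mem_Nb, onL_NL_comm]

@[simp] theorem NL_cen (H : Host P O q) (i : Bool) (L : P × A) : NL H i (cen H i L) = L := by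
  simp [NL, cen, H.pi_pi]

@[simp] theorem cen_NL (H : Host P O q) (i : Bool) (z : P × A) : cen H i (NL H i z) = z := by
  simp [NL, cen, H.pi_pi]

theorem NL_inj (H : Host P O q) (i : Bool) : Function.Injective (NL (A := A) H i) :=
  Function.LeftInverse.injective (cen_NL H i)

theorem pi_inj (H : Host P O q) (i : Bool) : Function.Injective (H.pi i) :=
  Function.LeftInverse.injective (H.pi_pi i)

theorem Nb_eq (H : Host P O q) (v : O → A) (i : Bool) (z : P × A) :
    Nb H v i z = lin H v (NL H i z) := rfl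

theorem card_Nb (H : Host P O q) (v : O → A) (i : Bool) (z : P × A) :
    (Nb H v i z).card = q + 1 := card_lin H v _

theorem mem_Nb_cen {H : Host P O q} {v : O → A} {i : Bool} {L x : P × A} :
    x ∈ Nb H v i (cen H i L) ↔ onL H v L x := by simp

/-- the neighbours of a set and the lifted lines meeting it -/
theorem card_NbS (H : Host P O q) (v : O → A) (i : Bool) (S : Finset (P × A)) :
    (NbS H v i S).card = (LLs H v S).card := by
  refine Finset.card_bij (fun x _ => NL H i x) ?_ ?_ ?_
  · intro x hx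
    rw [mem_NbS] at hx
    obtain ⟨y, hy, h⟩ := hx
    simp only [LLs, Finset.mem_filter, Finset.mem_univ, true_and]
    exact ⟨y, hy, onL_NL_comm.mp h⟩
  · intro x _ y _ h
    exact NL_inj H i h
  · intro L hL
    simp only [LLs, Finset.mem_filter, Finset.mem_univ, true_and] at hL
    obtain ⟨y, hy, h⟩ := hL
    refine ⟨cen H i L, ?_, NL_cen H i L⟩
    rw [mem_NbS]
    exact ⟨y, hy, onL_NL_comm.mpr (by simpa using h)⟩

/-! ### collinear points -/

theorem col_symm {H : Host P O q} {v : O → A} {x y : P × A} (h : col H v x y) :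
    col H v y x := ⟨h.1.symm, h.2.imp fun _ hL => ⟨hL.2, hL.1⟩⟩

theorem col_comm {H : Host P O q} {v : O → A} {x y : P × A} : col H v x y ↔ col H v y x :=
  ⟨col_symm, col_symm⟩

theorem not_col_self (H : Host P O q) (v : O → A) (x : P × A) : ¬ col H v x x :=
  fun h => h.1 rfl

theorem col_of_onL {H : Host P O q} {v : O → A} {L x y : P × A} (hne : x.1 ≠ y.1)
    (hx : onL H v L x) (hy : onL H v L y) : col H v x y := ⟨hne, L, hx, hy⟩

/-- collinearity as an equation for the voltages -/
theorem col_iff_eq {H : Host P O q} {v : O → A} {x y : P × A} {l : P} (hne : x.1 ≠ y.1)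
    (hx : H.inc x.1 l) (hy : H.inc y.1 l) :
    col H v x y ↔ v (H.orb x.1 l) - x.2 = v (H.orb y.1 l) - y.2 := by
  constructor
  · rintro ⟨_, L, h1, h2⟩
    have e : L.1 = l := H.uniq x.1 y.1 L.1 l hne h1.1 h2.1 hx hy
    rw [← e, ← onL_snd' h1, ← onL_snd' h2]
  · intro h
    refine ⟨hne, (l, v (H.orb x.1 l) - x.2), onL_mk' v x hx, ?_⟩
    rw [h]
    exact onL_mk' v y hy

theorem col_iff_eq_two {H : Host P O q} {v : O → A} (h2 : ∀ a : A, a + a = 0) {x y : P × A}
    {l : P} (hne : x.1 ≠ y.1) (hx : H.inc x.1 l) (hy : H.inc y.1 l) :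
    col H v x y ↔ v (H.orb x.1 l) + v (H.orb y.1 l) = x.2 + y.2 := by
  rw [col_iff_eq hne hx hy, sub_of_two h2, sub_of_two h2]
  have n := neg_of_two h2
  constructor
  · intro h
    have : v (H.orb x.1 l) + v (H.orb y.1 l) + (v (H.orb y.1 l) + x.2 + (v (H.orb y.1 l) + x.2)) =
        v (H.orb x.1 l) + v (H.orb y.1 l) := by rw [h2, add_zero]
    have h' : v (H.orb x.1 l) + x.2 + (v (H.orb y.1 l) + x.2) =
        v (H.orb y.1 l) + y.2 + (v (H.orb y.1 l) + x.2) := by rw [h]
    have e1 : v (H.orb x.1 l) + x.2 + (v (H.orb y.1 l) + x.2) =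
        v (H.orb x.1 l) + v (H.orb y.1 l) + (x.2 + x.2) := by abel
    have e2 : v (H.orb y.1 l) + y.2 + (v (H.orb y.1 l) + x.2) =
        (v (H.orb y.1 l) + v (H.orb y.1 l)) + (x.2 + y.2) := by abel
    rw [e1, e2, h2, h2, add_zero, zero_add] at h'
    exact h'
  · intro h
    have e1 : v (H.orb x.1 l) + x.2 + (v (H.orb y.1 l) + y.2) = 0 := by
      have : v (H.orb x.1 l) + x.2 + (v (H.orb y.1 l) + y.2) =
        (v (H.orb x.1 l) + v (H.orb y.1 l)) + (x.2 + y.2) := by abel
      rw [this, h, h2]
    have := eq_neg_of_add_eq_zero_left e1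
    rw [this, n]

theorem exists_col (H : Host P O q) (v : O → A) (z : P × A) (t : P) (ht : t ≠ z.1) :
    ∃ a, col H v z (t, a) := by
  obtain ⟨l, h1, h2⟩ := H.join z.1 t (Ne.symm ht)
  exact ⟨v (H.orb t l) - (v (H.orb z.1 l) - z.2), ⟨Ne.symm ht, (l, v (H.orb z.1 l) - z.2),
    onL_mk' v z h1, onL_mk v _ h2⟩⟩

/-- at most one point of every type is collinear with `z` -/
theorem col_unique {H : Host P O q} {v : O → A} {z x y : P × A} (hx : col H v z x)
    (hy : col H v z y) (h : x.1 = y.1) : x = y := by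
  obtain ⟨n1, L, h1, h2⟩ := hx
  obtain ⟨n2, M, h3, h4⟩ := hy
  have e : L.1 = M.1 := H.uniq z.1 x.1 L.1 M.1 n1 h1.1 h2.1 h3.1 (h ▸ h4.1)
  have e' : L = M := onL_inj' h1 h3 e
  subst e'
  exact onL_inj h2 h4 h

theorem mem_Ball {H : Host P O q} {v : O → A} {z x : P × A} :
    x ∈ Ball H v z ↔ x = z ∨ col H v z x := by simp [Ball]

theorem Ball_inj {H : Host P O q} {v : O → A} {z x y : P × A} (hx : x ∈ Ball H v z)
    (hy : y ∈ Ball H v z) (h : x.1 = y.1) : x = y := by
  rw [mem_Ball] at hx hy
  rcases hx with rfl | hx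
  · rcases hy with rfl | hy
    · rfl
    · exact absurd h hy.1
  · rcases hy with rfl | hy
    · exact absurd h.symm hx.1
    · exact col_unique hx hy h

theorem exists_mem_Ball (H : Host P O q) (v : O → A) (z : P × A) (t : P) :
    ∃ a, (t, a) ∈ Ball H v z := by
  by_cases h : t = z.1
  · exact ⟨z.2, by rw [mem_Ball]; left; rw [h]⟩
  · obtain ⟨a, ha⟩ := exists_col H v z t h
    exact ⟨a, by rw [mem_Ball]; right; exact ha⟩

/-- the ball has exactly one point over every type -/
theorem card_Ball_filter (H : Host P O q) (v : O → A) (z : P × A) (S : Finset P) :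
    ((Ball H v z).filter (fun x => x.1 ∈ S)).card = S.card := by
  refine Finset.card_bij (fun x _ => x.1) ?_ ?_ ?_
  · intro x hx
    exact (Finset.mem_filter.mp hx).2
  · intro x hx y hy h
    exact Ball_inj (Finset.mem_filter.mp hx).1 (Finset.mem_filter.mp hy).1 h
  · intro t ht
    obtain ⟨a, ha⟩ := exists_mem_Ball H v z t
    exact ⟨(t, a), Finset.mem_filter.mpr ⟨ha, ht⟩, rfl⟩

theorem card_Gam_filter_le (H : Host P O q) (v : O → A) (z : P × A) (S : Finset P) :
    ((Gam H v z).filter (fun x => x.1 ∈ S)).card ≤ S.card := by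
  refine Finset.card_le_card_of_injOn (fun x => x.1) ?_ ?_
  · intro x hx
    exact (Finset.mem_filter.mp hx).2
  · intro x hx y hy h
    have hx := (Finset.mem_filter.mp hx).1
    have hy := (Finset.mem_filter.mp hy).1
    rw [mem_Gam] at hx hy
    exact col_unique hx hy h

theorem card_Gam_filter (H : Host P O q) (v : O → A) (z : P × A) (S : Finset P)
    (hz : z.1 ∉ S) : ((Gam H v z).filter (fun x => x.1 ∈ S)).card = S.card := by
  refine Finset.card_bij (fun x _ => x.1) ?_ ?_ ?_
  · intro x hx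
    exact (Finset.mem_filter.mp hx).2
  · intro x hx y hy h
    have hx := (Finset.mem_filter.mp hx).1
    have hy := (Finset.mem_filter.mp hy).1
    rw [mem_Gam] at hx hy
    exact col_unique hx hy h
  · intro t ht
    obtain ⟨a, ha⟩ := exists_col H v z t (fun h => hz (h ▸ ht))
    exact ⟨(t, a), Finset.mem_filter.mpr ⟨by simpa using ha, ht⟩, rfl⟩

/-! ### the affine part -/

theorem card_PA (H : Host P O q) : (PA H).card = q ^ 2 := by
  have h := Finset.card_filter_add_card_filter_not (s := (Finset.univ : Finset P))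
    (fun t => H.inc t H.linf)
  rw [H.card_line, Finset.card_univ, H.card_P] at h
  have : (PA H).card = (Finset.univ.filter (fun t => ¬ H.inc t H.linf)).card := rfl
  omega

theorem card_line_PA (H : Host P O q) {l : P} (hl : l ≠ H.linf) :
    ((PA H).filter (fun t => H.inc t l)).card = q := by
  have h := Finset.card_filter_add_card_filter_not
    (s := (Finset.univ : Finset P).filter (fun t => H.inc t l)) (fun t => H.inc t H.linf)
  rw [H.card_line] at h
  have h1 : (((Finset.univ : Finset P).filter (fun t => H.inc t l)).filter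
      (fun t => H.inc t H.linf)).card = 1 := by
    rw [Finset.card_eq_one]
    obtain ⟨x, hx1, hx2⟩ := H.meet l H.linf hl
    refine ⟨x, ?_⟩
    ext y
    simp only [Finset.mem_filter, Finset.mem_univ, true_and, Finset.mem_singleton]
    constructor
    · rintro ⟨h1, h2⟩
      by_contra hne
      exact hl (H.uniq y x l H.linf hne h1 hx1 h2 hx2)
    · rintro rfl
      exact ⟨hx1, hx2⟩
  have h2 : ((PA H).filter (fun t => H.inc t l)) =
      ((Finset.univ : Finset P).filter (fun t => H.inc t l)).filter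
        (fun t => ¬ H.inc t H.linf) := by
    ext t
    simp [and_comm]
  rw [h2]
  omega

theorem card_line_PA_le (H : Host P O q) (l : P) :
    ((PA H).filter (fun t => H.inc t l)).card ≤ q := by
  by_cases hl : l = H.linf
  · have : ((PA H).filter (fun t => H.inc t l)) = ∅ := by
      ext t
      simp [hl]
    rw [this]
    simp
  · exact (card_line_PA H hl).le

theorem card_XA (H : Host P O q) : (XA A H).card = q ^ 2 * Fintype.card A := by
  have : XA A H = (PA H) ×ˢ (Finset.univ : Finset A) := by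
    ext x
    simp
  rw [this, Finset.card_product, card_PA, Finset.card_univ]

theorem card_lin_XA (H : Host P O q) (v : O → A) {L : P × A} (hL : L.1 ≠ H.linf) :
    (lin H v L ∩ XA A H).card = q := by
  refine Eq.trans ?_ (card_line_PA H hL)
  refine Finset.card_bij (fun x _ => x.1) ?_ ?_ ?_
  · intro x hx
    simp only [Finset.mem_inter, mem_lin, mem_XA] at hx
    simp [hx.1.1, hx.2]
  · intro x hx y hy h
    simp only [Finset.mem_inter, mem_lin, mem_XA] at hx hy
    exact onL_inj hx.1 hy.1 h
  · intro t ht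
    simp only [Finset.mem_filter, mem_PA] at ht
    exact ⟨(t, v (H.orb t L.1) - L.2), by
      simpa [ht.1] using onL_mk v L.2 ht.2, rfl⟩

theorem card_Nb_XA (H : Host P O q) (v : O → A) {i : Bool} {z : P × A}
    (hz : H.pi i z.1 ≠ H.linf) : (Nb H v i z ∩ XA A H).card = q := card_lin_XA H v hz

theorem card_Nb_XA_le (H : Host P O q) (v : O → A) (i : Bool) (z : P × A) :
    (Nb H v i z ∩ XA A H).card ≤ q := by
  by_cases hz : H.pi i z.1 = H.linf
  · have : Nb H v i z ∩ XA A H = ∅ := by
      ext x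
      simp only [Finset.mem_inter, mem_Nb, mem_XA, Finset.notMem_empty, iff_false]
      rintro ⟨h, h'⟩
      exact h' (by simpa [NL, hz] using h.1)
    rw [this]
    simp
  · exact (card_Nb_XA H v hz).le

theorem proper_of_XA {H : Host P O q} {x : P × A} (hx : x ∈ XA A H) : Proper H x := by
  intro i h
  rw [mem_XA] at hx
  apply hx
  have := H.pi_linf i
  rw [← h, H.pi_pi, h] at this
  exact this

theorem card_Nb_XA' (H : Host P O q) (v : O → A) (i : Bool) {z : P × A} (hz : z ∈ XA A H) :
    (Nb H v i z ∩ XA A H).card = q := card_Nb_XA H v (proper_of_XA hz i)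

/-- the neighbourhood of a point of the affine part has one ideal point -/
theorem card_Nb_sdiff_XA (H : Host P O q) (v : O → A) (i : Bool) {z : P × A}
    (hz : z ∈ XA A H) : (Nb H v i z \ XA A H).card = 1 := by
  have h1 := Finset.card_sdiff_add_card_inter (Nb H v i z) (XA A H)
  rw [card_Nb_XA' H v i hz, card_Nb] at h1
  omega

theorem card_NbS_sdiff_XA (H : Host P O q) (v : O → A) (i : Bool) {S : Finset (P × A)}
    (hS : S ⊆ XA A H) : (NbS H v i S \ XA A H).card ≤ S.card := by
  have h1 : NbS H v i S \ XA A H ⊆ S.biUnion (fun z => Nb H v i z \ XA A H) := by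
    intro x hx
    simp only [Finset.mem_sdiff, mem_NbS] at hx
    obtain ⟨⟨y, hy, h⟩, hx⟩ := hx
    exact Finset.mem_biUnion.mpr ⟨y, hy, by simp only [Finset.mem_sdiff, mem_Nb]; exact ⟨h, hx⟩⟩
  calc (NbS H v i S \ XA A H).card ≤ (S.biUnion (fun z => Nb H v i z \ XA A H)).card :=
        Finset.card_le_card h1
    _ ≤ ∑ z ∈ S, (Nb H v i z \ XA A H).card := Finset.card_biUnion_le
    _ = ∑ z ∈ S, 1 := Finset.sum_congr rfl fun z hz => card_Nb_sdiff_XA H v i (hS hz)
    _ = S.card := by simp

theorem card_NbS_XA_le (H : Host P O q) (v : O → A) (i : Bool) (S : Finset (P × A)) :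
    (NbS H v i S ∩ XA A H).card ≤ q * S.card := by
  have h1 : NbS H v i S ∩ XA A H ⊆ S.biUnion (fun z => Nb H v i z ∩ XA A H) := by
    intro x hx
    simp only [Finset.mem_inter, mem_NbS] at hx
    obtain ⟨⟨y, hy, h⟩, hx⟩ := hx
    exact Finset.mem_biUnion.mpr ⟨y, hy, by simp only [Finset.mem_inter, mem_Nb]; exact ⟨h, hx⟩⟩
  calc (NbS H v i S ∩ XA A H).card ≤ (S.biUnion (fun z => Nb H v i z ∩ XA A H)).card :=
        Finset.card_le_card h1
    _ ≤ ∑ z ∈ S, (Nb H v i z ∩ XA A H).card := Finset.card_biUnion_le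
    _ ≤ ∑ z ∈ S, q := Finset.sum_le_sum fun z _ => card_Nb_XA_le H v i z
    _ = q * S.card := by simp [mul_comm]

/-! ### labels -/

variable [Fintype V] [DecidableEq V]

theorem card_PA_lab {p : Par} {H : Host P O p.q} {φ : P → V} (hφ : Bald p H φ)
    (Z : Finset V) : ((PA H).filter (fun t => φ t ∈ Z)).card = p.w * Z.card := by
  have h1 : (PA H).filter (fun t => φ t ∈ Z) =
      Z.biUnion (fun u => (PA H).filter (fun t => φ t = u)) := by
    ext t
    simp only [Finset.mem_filter, Finset.mem_biUnion]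
    constructor
    · rintro ⟨h1, h2⟩
      exact ⟨φ t, h2, h1, rfl⟩
    · rintro ⟨u, hu, h1, rfl⟩
      exact ⟨h1, hu⟩
  rw [h1, Finset.card_biUnion]
  · rw [Finset.sum_congr rfl (fun u _ => hφ u)]
    simp [mul_comm]
  · intro u _ u' _ hne
    rw [Function.onFun, Finset.disjoint_left]
    intro t ht ht'
    exact hne ((Finset.mem_filter.mp ht).2.symm.trans (Finset.mem_filter.mp ht').2)

theorem card_XA_lab {p : Par} {H : Host P O p.q} {φ : P → V} (hφ : Bald p H φ)
    (Z : Finset V) : (XA A H ∩ labS A φ Z).card = Fintype.card A * (p.w * Z.card) := by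
  have : XA A H ∩ labS A φ Z = ((PA H).filter (fun t => φ t ∈ Z)) ×ˢ (Finset.univ : Finset A) := by
    ext x
    simp
  rw [this, Finset.card_product, card_PA_lab hφ, Finset.card_univ, mul_comm]

/-- the ball has `w |Z|` affine points with label in `Z` -/
theorem card_Ball_lab {p : Par} {H : Host P O p.q} {φ : P → V} (hφ : Bald p H φ) (v : O → A)
    (z : P × A) (Z : Finset V) : (Ball H v z ∩ XA A H ∩ labS A φ Z).card = p.w * Z.card := by
  rw [← card_PA_lab hφ Z, ← card_Ball_filter H v z]
  congr 1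
  ext x
  simp only [Finset.mem_inter, mem_XA, mem_labS, Finset.mem_filter, mem_PA, and_assoc]

end Geo

end Pool.Agent.helper24.TG
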