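import Pool.Agent.helper24.TG.Defs

set_option linter.all false
set_option autoImplicit false

/-!
# Tight graphs with exponent one half: the random properties (MP_ce98d8_co)
-/

namespace Pool.Agent.helper24.TG

open Finset Classical
open Pool.Agent.helper11.Tight (nb eo mem_nb)

section

variable {P O A V : Type} [Fintype P] [DecidableEq P] [Fintype O] [DecidableEq O]
  [Fintype A] [DecidableEq A] [AddCommGroup A] [Fintype V] [DecidableEq V]

/-! ### properties of the voltages -/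

/-- H1 -/
def H1 (p : Par) (H : Host P O p.q) (v : O → A) : Prop :=
  ∀ Q : Finset (P × A), Q.card = p.c →
    (Finset.univ.filter (fun x => Q ⊆ Gam H v x)).card ≤ 2 * p.c ^ 2 * p.q

/-- H2 -/
def H2 (p : Par) (H : Host P O p.q) (v : O → A) : Prop :=
  ∀ S : Finset (P × A), p.q ≤ 16 * S.card →
    (∀ L, 128 * p.c * (S ∩ lin H v L).card ≤ S.card) →
    (Finset.univ.filter (fun t : P => ∃ a : A,
      S.card ≤ 4 * (Gam H v (t, a) ∩ S).card)).card < p.c

/-- H3 -/
def H3 (p : Par) (H : Host P O p.q) (v : O → A) : Prop :=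
  ∀ L z : P × A, ¬ onL H v L z → p.c ^ 6 * (lin H v L ∩ Gam H v z).card ≤ p.q

/-- H4 -/
def H4 (p : Par) (H : Host P O p.q) (v : O → A) : Prop :=
  ∀ S : Finset (P × A), 1000 * S.card ≤ p.q * p.B → 7 * p.q * S.card ≤ 8 * (LLs H v S).card

/-- H6 -/
def H6 (p : Par) (H : Host P O p.q) (v : O → A) : Prop :=
  ∀ (i : Bool) (S W : Finset (P × A)), p.W0 ≤ S.card → p.W0 ≤ W.card →
    S.card * W.card ≤ 10 ^ 5 * p.B * p.q * eH H v i S W

/-- all properties of the voltages -/
structure HPr (p : Par) (H : Host P O p.q) (v : O → A) : Prop where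
  om : v ∈ Om A H.TT
  h1 : H1 p H v
  h2 : H2 p H v
  h3 : H3 p H v
  h4 : H4 p H v
  h6 : H6 p H v

/-! ### properties of one labelling -/

/-- balanced labellings; outside the affine part the label is irrelevant -/
def Bald (p : Par) (H : Host P O p.q) (φ : P → V) : Prop :=
  ∀ u : V, ((PA H).filter (fun t => φ t = u)).card = p.w

/-- the label space -/
noncomputable def Psi (p : Par) (H : Host P O p.q) (v0 : V) : Finset (P → V) :=
  Finset.univ.filter (fun φ => Bald p H φ ∧ ∀ t, t ∉ PA H → φ t = v0)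

/-- the sets of size `d` used in the line property -/
def Spec (T : SimpleGraph V) (MM : Finset (Finset V)) (Z : Finset V) : Prop :=
  Z ∈ MM ∨ ∃ u, Z = nb T u

/-- P1 -/
def P1 (p : Par) (H : Host P O p.q) (T : SimpleGraph V) (MM : Finset (Finset V)) (φ : P → V) :
    Prop :=
  ∀ (l : P) (Z : Finset V), Spec T MM Z →
    (((PA H).filter (fun t => H.inc t l ∧ φ t ∈ Z)).card : ℝ) ≤ 3 * p.rho

/-- P2 -/
def P2 (p : Par) (H : Host P O p.q) (v : O → A) (MM : Finset (Finset V)) (φ : P → V) : Prop :=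
  ∀ (i : Bool) (S : Finset (P × A)) (M : Finset V), S ⊆ XA A H → 1000 * S.card ≤ p.q * p.B →
    M ∈ MM → (3 / 4 : ℝ) * p.rho * S.card ≤ (NbS H v i S ∩ XA A H ∩ labS A φ M).card

/-- P3 -/
def P3 (p : Par) (H : Host P O p.q) (v : O → A) (φ : P → V) : Prop :=
  ∀ (i : Bool) (S : Finset (P × A)) (D : Finset V), S ⊆ XA A H →
    ((NbS H v i S ∩ XA A H ∩ labS A φ D).card : ℝ) ≤
      2 * p.q * S.card * D.card / p.N + 8 * p.B * (S.card + D.card) * p.Lam

/-- P4 -/
def P4 (p : Par) (H : Host P O p.q) (v : O → A) (MM : Finset (Finset V)) (φ : P → V) : Prop :=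
  ∀ (L z : P × A) (M : Finset V), ¬ onL H v L z → M ∈ MM →
    ((lin H v L ∩ Gam H v z ∩ XA A H ∩ labS A φ M).card : ℝ) ≤ p.rho / p.c

/-- P4' -/
def P4' (p : Par) (H : Host P O p.q) (v : O → A) (MM : Finset (Finset V)) (φ : P → V) : Prop :=
  ∀ (z z' : P × A) (M : Finset V), z ≠ z' → M ∈ MM →
    ((Gam H v z ∩ Gam H v z' ∩ XA A H ∩ labS A φ M).card : ℝ) ≤ p.q * p.rho / p.c

/-- P5 (ordered pairs) -/
def P5 (p : Par) (H : Host P O p.q) (v : O → A) (T : SimpleGraph V) (φ : P → V) : Prop :=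
  ∀ S : Finset (P × A), S ⊆ XA A H → FInd H v T φ S →
    (((S ×ˢ S).filter (fun r => T.Adj (φ r.1.1) (φ r.2.1))).card : ℝ) ≤
      2 * p.c * p.rho * S.card

/-- all properties of one labelling -/
structure PPr (p : Par) (H : Host P O p.q) (v : O → A) (T : SimpleGraph V)
    (MM : Finset (Finset V)) (φ : P → V) : Prop where
  bal : Bald p H φ
  p1 : P1 p H T MM φ
  p2 : P2 p H v MM φ
  p3 : P3 p H v φ
  p4 : P4 p H v MM φ
  p4' : P4' p H v MM φ
  p5 : P5 p H v T φ

/-! ### properties of all copies together -/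

/-- independent sets of the new graph, slice by slice -/
structure Ind (p : Par) (H : Host P O p.q) (v : O → A) (T : SimpleGraph V)
    (φ : Fin p.C → P → V) (S : Fin p.C → Finset (P × A)) : Prop where
  sub : ∀ j, S j ⊆ XA A H
  own : ∀ j, FInd H v T (φ j) (S j)
  cross : ∀ j j', j ≠ j' → ∀ x ∈ S j, ∀ y ∈ S j', y ∉ Nb H v (p.hf j != p.hf j') x

/-- (R) the rough property -/
def Rough (p : Par) (H : Host P O p.q) (v : O → A) (T : SimpleGraph V)
    (φ : Fin p.C → P → V) : Prop :=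
  ∀ S : Fin p.C → Finset (P × A), Ind p H v T φ S →
    ∃ c0, p.c ^ p.x0 * ∑ j ∈ Finset.univ.erase c0, (S j).card ≤ p.k

/-- Q2 -/
def Q2 (p : Par) (H : Host P O p.q) (v : O → A) (T : SimpleGraph V)
    (φ : Fin p.C → P → V) : Prop :=
  ∀ E0 : Finset (P × A), E0 ⊆ XA A H → E0.card ≤ p.q * p.B →
    (Finset.univ.filter (fun j : Fin p.C => ∃ S, S ⊆ E0 ∧ FInd H v T (φ j) S ∧
      p.c ^ 2 * p.q ≤ S.card)).card ≤ p.B ^ 2

/-- a copy is good for `E0`: large independent subsets of `E0` are almost on one line -/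
def GoodC (p : Par) (H : Host P O p.q) (v : O → A) (T : SimpleGraph V) (φ : P → V)
    (E0 : Finset (P × A)) : Prop :=
  ∀ S, S ⊆ E0 → FInd H v T φ S → p.q ≤ 8 * S.card →
    ∃ L, p.c ^ 4 * (S \ lin H v L).card ≤ p.q

/-- Q3 -/
def Q3 (p : Par) (H : Host P O p.q) (v : O → A) (T : SimpleGraph V)
    (φ : Fin p.C → P → V) : Prop :=
  ∀ E0 : Finset (P × A), E0 ⊆ XA A H → E0.card ≤ p.c ^ 6 * p.q →
    (Finset.univ.filter (fun j : Fin p.C => ¬ GoodC p H v T (φ j) E0)).card ≤ p.c ^ 12 * p.B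

/-- the points of `N_i(z)` in conflict with `S` -/
noncomputable def conf (p : Par) (H : Host P O p.q) (v : O → A) (T : SimpleGraph V) (φ : P → V)
    (i : Bool) (z : P × A) (S : Finset (P × A)) : Finset (P × A) :=
  (Nb H v i z ∩ XA A H).filter (fun u => ∃ y ∈ S, T.Adj (φ u.1) (φ y.1) ∧ ¬ col H v u y)

/-- Q4 -/
def Q4 (p : Par) (H : Host P O p.q) (v : O → A) (T : SimpleGraph V)
    (φ : Fin p.C → P → V) : Prop :=
  ∀ (z : P × A) (i : Bool) (E' : Finset (P × A)), Proper H z → E' ⊆ XA A H →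
    Disjoint E' (Nb H v i z) → E'.card ≤ p.c ^ 6 * p.q →
    (64 : ℝ) * (Finset.univ.filter (fun j : Fin p.C => ∃ S, S ⊆ E' ∧ S.Nonempty ∧
      E'.card ≤ 64 * p.c ^ 3 * S.card ∧ p.c ^ 4 * S.card ≤ p.q ∧
      (conf p H v T (φ j) i z S).card < 4 * S.card)).card ≤ p.rho

/-- all properties of the labellings -/
structure MPr (p : Par) (H : Host P O p.q) (v : O → A) (T : SimpleGraph V)
    (MM : Finset (Finset V)) (φ : Fin p.C → P → V) : Prop where
  one : ∀ j, PPr p H v T MM (φ j)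
  rough : Rough p H v T φ
  q2 : Q2 p H v T φ
  q3 : Q3 p H v T φ
  q4 : Q4 p H v T φ

/-! ### models -/

/-- the slices of the model `(z, c0, M)` -/
noncomputable def model (p : Par) (H : Host P O p.q) (v : O → A) (φ : Fin p.C → P → V)
    (z : P × A) (c0 : Fin p.C) (M : Finset V) (j : Fin p.C) : Finset (P × A) :=
  if j = c0 then (XA A H ∩ labS A (φ c0) M) \ Ball H v z
  else Nb H v (p.hf j != p.hf c0) z ∩ XA A H

end

end Pool.Agent.helper24.TG
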