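import Pool.Agent.helper24.TG.Props
import Pool.Agent.helper24.TG.Basic

set_option linter.all false
set_option autoImplicit false

/-!
# Statements, first wave (MP_ce98d8_co): tools

Every `XX_stmt` is one module.  Proof sketches are in the doc strings.
-/

namespace Pool.Agent.helper24.TG

open Finset Classical
open Pool.Agent.helper11.Tight (nb eo mem_nb)

/-! ### VS: the space of valid voltages -/

/-- VS1.  For fixed other coordinates at least `card A - D` values of `v o` are valid (each member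
of `TT` that contains `o` forbids one value), or none.  Slick proof: for `v ∈ Om` count the `a`
with `update v o a ∈ Om` (at least `card A - D`), then exchange the pairs
`(v, a) <-> (update v o a, v o)`. -/
def VS1_stmt : Prop := ∀ (O A : Type) [Fintype O] [DecidableEq O] [Fintype A] [DecidableEq A]
  [AddCommGroup A] (TT : Finset (Finset O)) (D : ℕ), CS TT D → D < Fintype.card A →
  ∀ (o : O) (G : (O → A) → ℝ) (z : (O → A) → A), (∀ v, 0 ≤ G v) → Free G o → Free z o →
    ((Fintype.card A : ℝ) - D) * ∑ v ∈ Om A TT, (if v o = z v then G v else 0) ≤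
      ∑ v ∈ Om A TT, G v

/-- VS2.  The map `v ↦ (update v o (z v), v o)` is injective. -/
def VS2_stmt : Prop := ∀ (O A : Type) [Fintype O] [DecidableEq O] [Fintype A] [DecidableEq A]
  [AddCommGroup A] (TT : Finset (Finset O)),
  ∀ (o : O) (G : (O → A) → ℝ) (z : (O → A) → A), (∀ v, 0 ≤ G v) → Free G o → Free z o →
    ∑ v ∈ Om A TT, (if Function.update v o (z v) ∈ Om A TT then G v else 0) ≤
      (Fintype.card A : ℝ) * ∑ v ∈ Om A TT, (if v o = z v then G v else 0)

/-- VS3 (TRI).  Greedy choice of a chain: take an equation `e`, delete all equations whose own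
orbit is in `sup e` (at most `18`, including `e`), continue: `e_1, ..., e_m` with
`own e_i ∉ sup e_j` for `j < i`.  Then by VS1 with `o = own e_i`, `G` = indicator of the equations
`j < i`, `z v = a e_i - sum of the other terms`, every equation costs a factor
`1 / (card A - D)`. -/
def VS3_stmt : Prop := ∀ (O A : Type) [Fintype O] [DecidableEq O] [Fintype A] [DecidableEq A]
  [AddCommGroup A] (TT : Finset (Finset O)) (D : ℕ), CS TT D → D < Fintype.card A →
  ∀ (ι : Type) [DecidableEq ι] (F : Finset ι) (own : ι → O) (sup : ι → Finset O) (a : ι → A)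
    (m : ℕ), (∀ e ∈ F, own e ∈ sup e) → (∀ e ∈ F, (sup e).card ≤ 3) →
    (∀ o, (F.filter (fun e => own e = o)).card ≤ 6) → 18 * m ≤ F.card →
    ((Om A TT).filter (fun v => ∀ e ∈ F, ∑ o ∈ sup e, v o = a e)).card *
      (Fintype.card A - D) ^ m ≤ (Om A TT).card

/-- VS4 (UT).  Put the coordinates in the order of `rk`.  With `G = exp (sum of the earlier
X / R)` (free at `o`): `exp x ≤ 1 + 2 x` on `[0,1]` and VS1 (for every value `a`, applied to
`G * X o (update v o a)`) give `E exp (sum X / R) ≤ exp (2 (sum Sg) / (R (card A - D)))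
≤ exp (y / (2R))`; Markov. -/
def VS4_stmt : Prop := ∀ (O A : Type) [Fintype O] [DecidableEq O] [Fintype A] [DecidableEq A]
  [AddCommGroup A] (TT : Finset (Finset O)) (D : ℕ), CS TT D → D < Fintype.card A →
  ∀ (rk : O → ℕ) (X : O → (O → A) → ℝ) (Sg : O → ℝ) (R y : ℝ), Function.Injective rk → 0 < R →
    (∀ o v, 0 ≤ X o v ∧ X o v ≤ R) → (∀ o o', rk o < rk o' → Free (X o) o') →
    (∀ o v, ∑ a, X o (Function.update v o a) ≤ Sg o) →
    4 * ∑ o, Sg o ≤ y * ((Fintype.card A : ℝ) - D) →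
    (((Om A TT).filter (fun v => y ≤ ∑ o, X o v)).card : ℝ) * Real.exp (y / (2 * R)) ≤
      (Om A TT).card

/-- VS5 (LT).  For `o ∈ F` and `G ≥ 0` depending on the coordinates in `F - o` only:
`card A * E[G 1(v o = z)] ≥ E[G 1(update v o z ∈ Om)]` (VS2), and
`E[G 1(update v o z ∉ Om)] ≤ D E[G] / (card A - D) ≤ E[G] / 2`, because a violated member
`{o, o', o''}` of `TT` forces `v o' = -z - v o''`, where `o' ∉ F`: VS1 at `o'`.  Hence
`E[G exp(-mu o (v o) / R)] ≤ E[G] exp(-(sum_a mu o a) / (4 (card A) R))`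
(`1 - exp(-x) ≥ x/2` on `[0,1]`), `E exp(-sum mu / R) ≤ exp(-M / (4 (card A) R))`, Markov. -/
def VS5_stmt : Prop := ∀ (O A : Type) [Fintype O] [DecidableEq O] [Fintype A] [DecidableEq A]
  [AddCommGroup A] (TT : Finset (Finset O)) (D : ℕ), CS TT D → 3 * D + 1 ≤ Fintype.card A →
  ∀ (F : Finset O) (mu : O → A → ℝ) (R : ℝ), 0 < R →
    (∀ S ∈ TT, (S ∩ F).card ≤ 1) → (∀ o ∈ F, {o} ∉ TT) → (∀ o a, 0 ≤ mu o a ∧ mu o a ≤ R) →
    (((Om A TT).filter (fun v => 8 * (Fintype.card A : ℝ) * ∑ o ∈ F, mu o (v o) ≤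
      ∑ o ∈ F, ∑ a, mu o a)).card : ℝ) *
      Real.exp ((∑ o ∈ F, ∑ a, mu o a) / (8 * Fintype.card A * R)) ≤ (Om A TT).card

/-- VS6.  The graph on `F` (two elements adjacent if some member of `TT` contains both) has degree
at most `2 D`; greedy: take the heaviest element, delete its neighbours, continue. -/
def VS6_stmt : Prop := ∀ (O : Type) [Fintype O] [DecidableEq O] (TT : Finset (Finset O)) (D : ℕ),
  CS TT D → ∀ (F : Finset O) (w : O → ℝ), (∀ o, 0 ≤ w o) →
    ∃ F' ⊆ F, (∀ S ∈ TT, (S ∩ F').card ≤ 1) ∧ ∑ o ∈ F, w o ≤ (2 * D + 1) * ∑ o ∈ F', w o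

/-- VS7.  The constant voltage `a ≠ 0` is valid (odd sums in characteristic two). -/
def VS7_stmt : Prop := ∀ (O A : Type) [Fintype O] [DecidableEq O] [Fintype A] [DecidableEq A]
  [AddCommGroup A] (TT : Finset (Finset O)) (D : ℕ), CS TT D → (∀ a : A, a + a = 0) →
  2 ≤ Fintype.card A → (Om A TT).Nonempty

/-! ### HC: the host plane -/

/-- a projective plane of order `q` with an orthogonal action of the symmetric group on three
coordinates (points and lines are both named by homogeneous vectors, incidence = dot product 0) -/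
structure PreHost (P : Type) [Fintype P] [DecidableEq P] (q : ℕ) where
  inc : P → P → Prop
  act : Equiv.Perm (Fin 3) → P → P
  linf : P
  card_P : Fintype.card P = q ^ 2 + q + 1
  card_line : ∀ l, (Finset.univ.filter (fun x => inc x l)).card = q + 1
  join : ∀ x y, x ≠ y → ∃ l, inc x l ∧ inc y l
  uniq : ∀ x y l m, x ≠ y → inc x l → inc y l → inc x m → inc y m → l = m
  inc_symm : ∀ x l, inc x l → inc l x
  act_one : ∀ x, act 1 x = x
  act_mul : ∀ g h x, act (g * h) x = act g (act h x)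
  inc_act : ∀ g x l, inc x l → inc (act g x) (act g l)
  fix3 : ∀ g : Equiv.Perm (Fin 3), Equiv.Perm.sign g = 1 → g ≠ 1 →
    (Finset.univ.filter (fun x => act g x = x)).card ≤ 3
  abs2 : ∀ g : Equiv.Perm (Fin 3), Equiv.Perm.sign g = -1 →
    (Finset.univ.filter (fun x => inc x (act g x))).card ≤ q + 1
  inf1 : inc (act (Equiv.swap 1 2) linf) linf
  inf2 : inc (act (Equiv.swap 0 2) linf) linf
  inf3 : act (Equiv.swap 1 2) linf ≠ act (Equiv.swap 0 2) linf

/-- HC1.  `P` = the points of the projective plane over `GaloisField 2 h` (Mathlib: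
`ℙ F (Fin 3 → F)`, `Projectivization.orthogonal`, `Configuration.ofField`), `act` permutes the
coordinates, `linf = (0:0:1)`.  `fix3`: a fixed point of a three-cycle is `(1 : t : t^2)` with
`t^3 = 1`.  `abs2`: `x . g x = x_k^2` in characteristic two for a transposition fixing `k`. -/
def HC1_stmt : Prop := ∀ h : ℕ, 1 ≤ h → ∃ (P : Type) (_ : Fintype P) (_ : DecidableEq P),
  Nonempty (PreHost P (2 ^ h))

/-- HC2.  `pi false = act (swap 1 2)`, `pi true = act (swap 0 2)`, `O = Finset (P × P)`,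
`orb x l` = the set of the flags `(g x, g l)`, `g` even, and `(g l, g x)`, `g` odd;
`TT` = all `osup (orb x1 (pi false x2)) (orb x2 (pi false x3)) (orb x1 (pi false x3))` with
`x1, x2, x3` pairwise `pi false`-conjugate.
`fixL` = fixed points of the three-cycles.  `fixL_spec`, `fixF`: if `(x', l') = g(x, l)`: for even
`g ≠ 1` and `l = l'` the line is fixed, for odd `g`: `x' = g l, l' = g x`.
`tt2`: the triple `(om x1, x2, x3)`, `om = pi false . pi true`, gives the same three orbits.
`cs.deg`: a member containing `o` comes from a triple one of whose three flags is one of the `≤ 6`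
flags of `o`; this determines two of the points, the third is the intersection of two different
lines, except if two of the points are equal, and then the member is the singleton `{o}`.
`tt_deg`: if `{o}` is a member then two of the three orbits of the triple coincide, say
`orb x2 (pi x1) = orb x2 (pi x3)` (all other coincidences are renamings): `x1 = x3` (then the third
flag is absolute, `abs2`), or `pi x3 = g (pi x1)`, `x2 = g x2` with `g` a three-cycle (`fix3`,
`3 * 2 * (q+1)` triples), or `(x2, pi x3) = (g pi x1, g x2)` with `g` odd, which gives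
`x1 = pi g x2 = x3`.  The bound `1000 (q+1)` has a lot of room. -/
def HC2_stmt : Prop := ∀ (P : Type) [Fintype P] [DecidableEq P] (q : ℕ), 4 ≤ q → PreHost P q →
  Nonempty (Host P (Finset (P × P)) q)

/-! ### LB: balanced labellings -/

/-- LB1.  One step: for `x ∈ PA - J` the numbers of `φ ∈ Psi` with `φ = g` on `J` and `φ y = u` are
the same for all `y ∈ PA - J` (compose with a transposition of points), their sum over `y` is at
most `w * #{φ = g on J}`; hence `#{φ = g on J + x} (q^2 - card J) ≤ w #{φ = g on J}`.  Then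
`w^k / (q^2 (q^2-1) ... (q^2-k+1)) ≤ N^{-k} exp (2 k^2 / q^2)` for `2 k ≤ q^2`.
(`card (PA H) = q^2`: `card_P`, `card_line`.) -/
def LB1_stmt : Prop := ∀ (p : Par) (P O V : Type) [Fintype P] [DecidableEq P] [Fintype O]
  [DecidableEq O] [Fintype V] [DecidableEq V] (H : Host P O p.q) (v0 : V),
  Fintype.card V = p.N → ∀ (g : P → V) (J : Finset P), J ⊆ PA H → 2 * J.card ≤ p.q ^ 2 →
    (((Psi p H v0).filter (fun φ => ∀ t ∈ J, φ t = g t)).card : ℝ) * (p.N : ℝ) ^ J.card ≤
      (Psi p H v0).card * Real.exp (2 * (J.card : ℝ) ^ 2 / (p.q : ℝ) ^ 2)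

/-- LB2.  As LB1: `#{φ(J + x) ⊆ Z} (q^2 - k) = (w |Z| - k) #{φ(J) ⊆ Z}`, and
`(w |Z| - k) / (q^2 - k) ≤ w |Z| / q^2 = |Z| / N`. -/
def LB2_stmt : Prop := ∀ (p : Par) (P O V : Type) [Fintype P] [DecidableEq P] [Fintype O]
  [DecidableEq O] [Fintype V] [DecidableEq V] (H : Host P O p.q) (v0 : V),
  Fintype.card V = p.N → ∀ (Z : Finset V) (J : Finset P), J ⊆ PA H →
    ((Psi p H v0).filter (fun φ => ∀ t ∈ J, φ t ∈ Z)).card * p.N ^ J.card ≤
      Z.card ^ J.card * (Psi p H v0).card

/-- LB3 (upper tail), from LB2: `exp (mu t / R) = 1 + x_t`, `x_t ≤ 2 mu t / R`,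
`E prod (1 + x_t 1(φ t ∈ Z)) = sum_J (prod x_t) P(φ(J) ⊆ Z) ≤ prod (1 + x_t |Z| / N)
≤ exp (2 mean / R)`; Markov. -/
def LB3_stmt : Prop := ∀ (p : Par) (P O V : Type) [Fintype P] [DecidableEq P] [Fintype O]
  [DecidableEq O] [Fintype V] [DecidableEq V] (H : Host P O p.q) (v0 : V),
  Fintype.card V = p.N → ∀ (Z : Finset V) (J : Finset P) (mu : P → ℝ) (R y : ℝ), J ⊆ PA H →
    0 < R → (∀ t ∈ J, 0 ≤ mu t ∧ mu t ≤ R) →
    (((Psi p H v0).filter (fun φ => 2 * ((Z.card : ℝ) / p.N * ∑ t ∈ J, mu t) + y ≤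
      ∑ t ∈ J, if φ t ∈ Z then mu t else 0)).card : ℝ) * Real.exp (y / R) ≤ (Psi p H v0).card

/-- LB4 (lower tail), from LB2 for the complement of `Z`: with `X' = sum over φ t ∉ Z`,
`E exp(-θ X / R) = exp(-θ (sum mu) / R) E exp(θ X' / R) ≤ exp(-(1 - θ/2) θ mean / R)`, take
`θ = e`. -/
def LB4_stmt : Prop := ∀ (p : Par) (P O V : Type) [Fintype P] [DecidableEq P] [Fintype O]
  [DecidableEq O] [Fintype V] [DecidableEq V] (H : Host P O p.q) (v0 : V),
  Fintype.card V = p.N → ∀ (Z : Finset V) (J : Finset P) (mu : P → ℝ) (R e : ℝ), J ⊆ PA H →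
    0 < R → 0 < e → e ≤ 1 → (∀ t ∈ J, 0 ≤ mu t ∧ mu t ≤ R) →
    (((Psi p H v0).filter (fun φ => (∑ t ∈ J, if φ t ∈ Z then mu t else 0) ≤
      (1 - e) * ((Z.card : ℝ) / p.N * ∑ t ∈ J, mu t))).card : ℝ) *
      Real.exp (e ^ 2 * ((Z.card : ℝ) / p.N * ∑ t ∈ J, mu t) / (2 * R)) ≤ (Psi p H v0).card

/-- LB5.  There is a balanced labelling: `card (PA H) = q^2 = w N`. -/
def LB5_stmt : Prop := ∀ (p : Par) (P O V : Type) [Fintype P] [DecidableEq P] [Fintype O]
  [DecidableEq O] [Fintype V] [DecidableEq V] (H : Host P O p.q) (v0 : V),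
  Fintype.card V = p.N → (Psi p H v0).Nonempty

/-- LB6.  From LB1 by a union over `SS`. -/
def LB6_stmt : Prop := ∀ (p : Par) (P O V : Type) [Fintype P] [DecidableEq P] [Fintype O]
  [DecidableEq O] [Fintype V] [DecidableEq V] (H : Host P O p.q) (v0 : V),
  Fintype.card V = p.N → ∀ (k : ℕ) (e : Fin k → P) (SS : Finset (Fin k → V)),
    Function.Injective e → (∀ i, e i ∈ PA H) → 2 * k ≤ p.q ^ 2 →
    (((Psi p H v0).filter (fun φ => (fun i => φ (e i)) ∈ SS)).card : ℝ) * (p.N : ℝ) ^ k ≤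
      SS.card * (Psi p H v0).card * Real.exp (2 * (k : ℝ) ^ 2 / (p.q : ℝ) ^ 2)

/-! ### CT: containers -/

/-- CT1 (bipartite containers).  By induction on `card W1` prove for all `W1, W2, k` with
`card W2 * (D-1)^k < W0 * D^k`: there is a family `F` of at most `2 (card W1 + 1)^k` sets of size
`≤ W0 + k` (for the first kind: size `≤ W0 + ` number of inserted points) such that for
independent `S ⊆ W1`, `R ⊆ W2` some member contains `S` or `R`.  If `card W1 < W0` or
`card W2 < W0`: one set.  Otherwise take `x ∈ W1` with most `rel`-neighbours in `W2`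
(at least `card W2 / D`); for `x ∉ S` use `(W1 - x, W2, k)`, for `x ∈ S` use
`(W1 - x, W2 - N(x), k - 1)` and insert `x` in all members. -/
def CT1_stmt : Prop := ∀ (X : Type) [Fintype X] [DecidableEq X] (rel : X → X → Prop)
  (W0 D k : ℕ), 1 ≤ W0 → 1 ≤ D →
  (∀ S W : Finset X, W0 ≤ S.card → W0 ≤ W.card →
    S.card * W.card ≤ D * ((S ×ˢ W).filter (fun e => rel e.1 e.2)).card) →
  Fintype.card X * (D - 1) ^ k < W0 * D ^ k →
  ∃ F : Finset (Finset X), F.card ≤ 2 * (Fintype.card X + 1) ^ k ∧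
    (∀ W ∈ F, W.card ≤ W0 + k) ∧
    ∀ S R : Finset X, (∀ x ∈ S, ∀ y ∈ R, ¬ rel x y) → ∃ W ∈ F, S ⊆ W ∨ R ⊆ W

/-- CT3 (containers of a graph).  By induction on `card Z` for all `Z, k` with
`card Z (La - 1)^k < t La^k` as in CT1: for independent `U ⊆ Z` some member `W` has `U ⊆ W`
and `card (W - U) ≤ t`.  If `card Z < t` one set; otherwise take `u ∈ Z` with at least
`card Z / La` neighbours in `Z`; `u ∉ U`: `Z - u`; `u ∈ U`: `Z - u - N(u)`, insert `u`.
At the end keep only the members with `card ≤ t + al`. -/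
def CT3_stmt : Prop := ∀ (V : Type) [Fintype V] [DecidableEq V] (T : SimpleGraph V)
  (t La k al : ℕ), 1 ≤ t → 1 ≤ La →
  (∀ Y : Finset V, t ≤ Y.card → ∃ y ∈ Y, Y.card ≤ La * (nb T y ∩ Y).card) →
  (∀ U : Finset V, IndT T U → U.card ≤ al) →
  Fintype.card V * (La - 1) ^ k < t * La ^ k →
  ∃ F : Finset (Finset V), F.card ≤ (Fintype.card V + 1) ^ k ∧ (∀ W ∈ F, W.card ≤ t + al) ∧
    ∀ U : Finset V, IndT T U → ∃ W ∈ F, U ⊆ W

/-- CT4 (containers of labelled sets; section 7.4 of the proof text).  State: `Z`, `cov : V → ℕ`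
with `cov < c` on `Z`, potential `sum_{u ∈ Z} (c - cov u)`.  If `card Z < t`: one pair `(∅, Z)`.
Otherwise `u ∈ Z` with at least `card Z / La` neighbours in `Z`; if no point of `Sg` has label
`u`: go on with `Z - u`; if `(x, u) ∈ Sg`: go on with `Sg - (x,u)`, `cov + 1` on `N(u)`, `Z` minus
the labels with new `cov ≥ c`, and insert `(x,u)` in the first components (`card X` possibilities
for `x`); the potential drops by a factor `1 - 1 / (c La)`.  Number of pairs
`≤ (1 + card X (card Z + 1))^k`. -/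
def CT4_stmt : Prop := ∀ (X V : Type) [Fintype X] [DecidableEq X] [Fintype V] [DecidableEq V]
  (T : SimpleGraph V) (t La c k : ℕ), 1 ≤ t → 1 ≤ La → 1 ≤ c →
  (∀ Y : Finset V, t ≤ Y.card → ∃ y ∈ Y, Y.card ≤ La * (nb T y ∩ Y).card) →
  c * Fintype.card V * (c * La - 1) ^ k < (c * La) ^ k →
  ∃ F : Finset (Finset (X × V) × Finset V),
    F.card ≤ (1 + Fintype.card X * (Fintype.card V + 1)) ^ k ∧
    (∀ f ∈ F, f.1.card ≤ k ∧ f.2.card ≤ t) ∧
    ∀ Sg : Finset (X × V), ∃ f ∈ F, f.1 ⊆ Sg ∧ ∀ e ∈ Sg \ f.1, e.2 ∈ f.2 ∨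
      c ≤ (f.1.filter (fun e' => T.Adj e'.2 e.2)).card

/-! ### QC: counting vectors of labels -/

/-- QC1 (LABC).  Induction on `k` for a general start set `Z` with `s` shrinking steps left
(`card Z (N L - d)^s E < N (N L)^s`): by `mix` fewer than `N / E` labels `u` have
`|N(u) ∩ Z| < |Z| d / (N L)` as long as `|Z| ≥ N/E`; so
`a(k, s) E ≤ N a(k-1, s) + E N a(k-1, s-1)` and `a(k, s) E^k ≤ 2^k N^k E^s`.
`f1`: `(1 - d / (N L))^f1 ≤ exp(-Lam) < 2^(-Lam) ≤ 1 / E`. -/
def QC1_stmt : Prop := ∀ (p : Par) (V : Type) [Fintype V] [DecidableEq V] (T : SimpleGraph V)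
  (MM : Finset (Finset V)), TSp p T MM → ∀ k : ℕ,
  ((Finset.univ : Finset (Fin k → V)).filter (fun u =>
    p.N ≤ p.E * (Finset.univ.filter (fun x : V => ∀ i, ¬ T.Adj (u i) x)).card)).card *
      p.E ^ k ≤ 2 ^ k * p.N ^ k * p.E ^ p.f1

/-- QC2 (independent vectors).  As QC1: a step is in the small set of labels, or it shrinks `Z`,
or `|Z| < N / E` and the label is in `Z`. -/
def QC2_stmt : Prop := ∀ (p : Par) (V : Type) [Fintype V] [DecidableEq V] (T : SimpleGraph V)
  (MM : Finset (Finset V)), TSp p T MM → ∀ k : ℕ,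
  ((Finset.univ : Finset (Fin k → V)).filter (fun u => ∀ i j, ¬ T.Adj (u i) (u j))).card *
      p.E ^ k ≤ 2 ^ k * p.N ^ k * p.E ^ p.f1

/-- QC3 (LABEXP).  A step is useful if it adds at least `d/2` new neighbours: less than
`a + 1` useful steps if the union stays smaller than `h`; by regularity fewer than
`2 |N_prev| < 2 h` labels are not useful. -/
def QC3_stmt : Prop := ∀ (p : Par) (V : Type) [Fintype V] [DecidableEq V] (T : SimpleGraph V)
  (MM : Finset (Finset V)), TSp p T MM → ∀ k h a : ℕ, 2 * h ≤ p.N → 2 * h ≤ (a + 1) * p.d →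
  ((Finset.univ : Finset (Fin k → V)).filter (fun u =>
    (Finset.univ.filter (fun x : V => ∃ i, T.Adj (u i) x)).card < h)).card * (2 * h) ^ a ≤
      2 ^ k * p.N ^ a * (2 * h) ^ k

end Pool.Agent.helper24.TG
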