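import Pool.Agent.helper24.TG.S1
import Pool.Agent.helper24.TG.Geo

set_option linter.all false
set_option autoImplicit false

/-!
# Statements, second wave (MP_ce98d8_co): random properties of the voltages and of one labelling

Numerics: `Pool/Agent/helper41/TGE/Num.lean` (facts about `Par`).  `c ≥ 10^6 Lam`, `B ≥ c^200`,
so `2^Lam ≤ 2^(c / 10^6)`, while `B - 40 ≥ 2^3900`; all inequalities have an enormous amount of
room, use crude bounds.
-/

namespace Pool.Agent.helper24.TG

open Finset Classical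
open Pool.Agent.helper11.Tight (nb eo mem_nb)

/-! ### deterministic geometry -/

/-- MX (type level expander mixing).  `f l := #{y ∈ W : inc y.1 l}`,
`sum_l f l = (q+1)|W|`, `sum_l (f l)^2 ≤ |W|^2 + q B |W|` (two different types are on one common
line, at most `B` points per type), so `sum_l (f l - mean)^2 ≤ q B |W|` with
`mean = (q+1)|W| / (q^2+q+1)`; Cauchy-Schwarz over `x ∈ S` (every line is `pi i x.1` for at most
`B` points `x`): `sum_{x ∈ S} f (pi i x.1) ≥ |S| mean - B sqrt (q |S| |W|)`, and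
`B sqrt (q |S| |W|) ≤ |S| |W| / (c^2 q)` because `|S|, |W| ≥ W0`. -/
def MX_stmt : Prop := ∀ (p : Par) (P O A : Type) [Fintype P] [DecidableEq P] [Fintype O]
  [DecidableEq O] [Fintype A] [DecidableEq A] [AddCommGroup A] (H : Host P O p.q),
  Fintype.card A = p.B → ∀ (i : Bool) (S W : Finset (P × A)), p.W0 ≤ S.card → p.W0 ≤ W.card →
    S.card * W.card ≤ 2 * p.q * ((S ×ˢ W).filter (fun e => H.inc e.2.1 (H.pi i e.1.1))).card

/-- H3' (deterministic): `Gam z ∩ Gam z'` is covered by the `q+1` lifted lines through `z`; a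
lifted line not through `z'` contains at most `q / c^6` points of `Gam z'` (H3), at most one of
the lines contains `z'` (at most `q` points `≠ z`). -/
def H3c_stmt : Prop := ∀ (p : Par) (P O A : Type) [Fintype P] [DecidableEq P] [Fintype O]
  [DecidableEq O] [Fintype A] [DecidableEq A] [AddCommGroup A] (H : Host P O p.q) (v : O → A),
  H3 p H v → ∀ z z' : P × A, z ≠ z' →
    p.c ^ 6 * (Gam H v z ∩ Gam H v z').card ≤ (p.q + 1) * p.q + p.c ^ 6 * p.q

/-! ### properties of the voltages -/

/-- HP1.  Deterministic part: the `x` with `Q ⊆ Gam x` for which two points of `Q` are on one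
lifted line through `x`: at most `c^2 (q+1) / 2` (two points of `Q` are on at most one lifted
line).  For the other `x` the base lines from `x` to the `c` points of `Q` are different, and two
such `x` have different types (`col_unique`).  So if H1 fails, there are `Q, Y` with `c` elements
each, the types of `Y` distinct, `Q ⊆ Gam x` and distinct base lines for every `x ∈ Y`.
Probability for fixed `(Q, Y)`: VS3 with `ι = pairs (x, s)`, equation
`v (orb x.1 l) + v (orb s.1 l) = x.2 + s.2` (`col_iff_eq_two`), own orbit `orb x.1 l`,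
`l` = base line, pairs with `l ∈ fixL` left out (at most `3` for every `x`):
at least `c (c-3)` equations, the own flags `(x.1, l)` are distinct, `orb_le` gives `≤ 6` per
orbit.  Union bound over `2^(2 c Lam)` pairs `(Q, Y)`. -/
def HP1_stmt : Prop := ∀ (p : Par) (P O A : Type) [Fintype P] [DecidableEq P] [Fintype O]
  [DecidableEq O] [Fintype A] [DecidableEq A] [AddCommGroup A] (H : Host P O p.q),
  Fintype.card A = p.B → (∀ a : A, a + a = 0) →
  ((Om A H.TT).filter (fun v => ¬ H1 p H v)).card * 2 ^ (10 * p.Lam) ≤ (Om A H.TT).card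

/-- HP2.  If H2 fails for `S` take points `x_1, ..., x_c` of distinct types with
`4 |Gam x_i ∩ S| ≥ |S|`.  Bad base lines for `x_i`: the lines to the other `x_j` and those in
`fixL`: at most `c + 2`, each carries at most `|S| / (128 c)` points of `S ∩ Gam x_i` (they are
on the lifted line over it through `x_i`).  So at least `c |S| / 8` pairs `(i, y)`,
`y ∈ S ∩ Gam x_i` with good base line `l`; equation `v (orb y.1 l) + v (orb x_i.1 l) =
y.2 + x_i.2`, own orbit `orb y.1 l`, own flags `(y.1, l)` distinct.  VS3 with `m ≥ c |S| / 150`;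
union over `S` (use `ub_sets`), the points `x_i` (`2^(c Lam)`) and the set of pairs
(`2^(c |S|)`). -/
def HP2_stmt : Prop := ∀ (p : Par) (P O A : Type) [Fintype P] [DecidableEq P] [Fintype O]
  [DecidableEq O] [Fintype A] [DecidableEq A] [AddCommGroup A] (H : Host P O p.q),
  Fintype.card A = p.B → (∀ a : A, a + a = 0) →
  ((Om A H.TT).filter (fun v => ¬ H2 p H v)).card * 2 ^ (10 * p.Lam) ≤ (Om A H.TT).card

/-- HP3.  `z` not on `L`; if `inc z.1 L.1` then `lin L ∩ Gam z = ∅`.  Otherwise for `s` on `L.1`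
let `m` be the line through `s` and `z.1`; the point of `L` over `s` is collinear with `z` iff
`v (orb s m) + v (orb s L.1) + v (orb z.1 m) = L.2 + z.2`; own orbit `orb s m`,
`sup = osup ...` (`sum_osup`).  Leave out the `s` with `orb s m = orb s L.1` (`fixF`, at most
`6`) or `orb s m = orb z.1 m` (then `m ∈ fixL`, at most `3`).  If
`c^6 |lin L ∩ Gam z| > q` choose a subset of size `m0 = q / c^6 + 1`: `choose (q+1) m0` choices
(`choose_mul_pow_le`), VS3 with at least `(m0 - 9) / 18 - 1` equations, `B - 40 ≥ c^199`. -/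
def HP3_stmt : Prop := ∀ (p : Par) (P O A : Type) [Fintype P] [DecidableEq P] [Fintype O]
  [DecidableEq O] [Fintype A] [DecidableEq A] [AddCommGroup A] (H : Host P O p.q),
  Fintype.card A = p.B → (∀ a : A, a + a = 0) →
  ((Om A H.TT).filter (fun v => ¬ H3 p H v)).card * 2 ^ (10 * p.Lam) ≤ (Om A H.TT).card

/-- HP4.  Fixed nonempty `S`, `1000 |S| ≤ q B`.  `rk` = any injective rank of the orbits.  For a
line `l ∉ fixL` the flags `(t, l)` have distinct orbits; `Occ_l o` = the set of `b : A` such that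
the lifted line `(l, b)` contains a point `(t, a) ∈ S` with `rk (orb t l) < rk o`;
`X o v = sum over the flags (t, l) of orbit o, l ∉ fixL, of
#{a : (t, a) ∈ S, v o - a ∈ Occ_l o} ≤ 6 B = R`.  `sum_z X o (update v o z) =
sum_{flags} |S_t| |Occ_l o| ≤ Sg o := sum_{flags (t,l) of o} |S_t| * sum_{t' on l,
rk (orb t' l) < rk o} |S_t'|`, and `sum_o Sg o ≤ |S|^2` (two types are on one line).  VS4 with
`y = q |S| / 16`.  If `sum_o X o v < y` then `|LLs S| ≥ sum_l (sigma_l) - y - 3 |S| ≥ 7 q |S| / 8`,
`sigma_l = #{x ∈ S : inc x.1 l}`, `sum_l sigma_l = (q+1)|S|`.  Failure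
`exp (-q |S| / (192 B))`, union by `ub_sets`. -/
def HP4_stmt : Prop := ∀ (p : Par) (P O A : Type) [Fintype P] [DecidableEq P] [Fintype O]
  [DecidableEq O] [Fintype A] [DecidableEq A] [AddCommGroup A] (H : Host P O p.q),
  Fintype.card A = p.B → (∀ a : A, a + a = 0) →
  ((Om A H.TT).filter (fun v => ¬ H4 p H v)).card * 2 ^ (10 * p.Lam) ≤ (Om A H.TT).card

/-- HP6.  `mu o a = #{(x, y) ∈ S × W : inc y.1 (pi i x.1), orb y.1 (pi i x.1) = o,
x.2 + y.2 = a} ≤ 6 B = R`, `eH i S W = sum_o mu o (v o)`; total mass `≥ |S||W| / (2q)` by MX, the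
orbits with `{o} ∈ TT` carry at most `1000 (q+1) B^2 ≤ |S||W| / (4q)` (`tt_deg`); VS6 with
`w o = sum_a mu o a` keeps `1/81` of the rest; VS5 gives failure
`≤ exp (-|S||W| / (16000 q B^2))`, and `|S||W| ≥ W0 (|S| + |W|) / 2`; union over pairs `(S, W)`
by `ub_sets` for subsets of `Bool × (P × A)`. -/
def HP6_stmt : Prop := ∀ (p : Par) (P O A : Type) [Fintype P] [DecidableEq P] [Fintype O]
  [DecidableEq O] [Fintype A] [DecidableEq A] [AddCommGroup A] (H : Host P O p.q),
  Fintype.card A = p.B → (∀ a : A, a + a = 0) →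
  ((Om A H.TT).filter (fun v => ¬ H6 p H v)).card * 2 ^ (10 * p.Lam) ≤ (Om A H.TT).card

/-! ### properties of one labelling -/

/-- PP1.  LB3 with `J` = affine types on `l` (at most `q`), `mu = 1`, `R = 1`, `y = rho`; mean
`≤ rho`; union over `l` and the `≤ m + N` sets `Z` (all of size `d`). -/
def PP1_stmt : Prop := ∀ (p : Par) (P O V : Type) [Fintype P] [DecidableEq P] [Fintype O]
  [DecidableEq O] [Fintype V] [DecidableEq V] (H : Host P O p.q) (T : SimpleGraph V)
  (MM : Finset (Finset V)) (v0 : V), TSp p T MM →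
  ((Psi p H v0).filter (fun φ => ¬ P1 p H T MM φ)).card * 2 ^ (8 * p.Lam) ≤ (Psi p H v0).card

/-- PP2.  For nonempty `S`: `|NbS i S ∩ XA| ≥ (7/8) q |S| - |S|` (`card_NbS`, H4,
`card_NbS_sdiff_XA`); LB4 with `mu t` = number of points of `NbS i S ∩ XA` over `t`, `R = B`,
`e = 1/8`: `(7/8)(7/8 - 1/q) ≥ 3/4`; failure `exp (-rho |S| / (200 B))`. -/
def PP2_stmt : Prop := ∀ (p : Par) (P O A V : Type) [Fintype P] [DecidableEq P] [Fintype O]
  [DecidableEq O] [Fintype A] [DecidableEq A] [AddCommGroup A] [Fintype V] [DecidableEq V]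
  (H : Host P O p.q) (v : O → A) (T : SimpleGraph V) (MM : Finset (Finset V)) (v0 : V),
  Fintype.card A = p.B → TSp p T MM → H4 p H v →
  ((Psi p H v0).filter (fun φ => ¬ P2 p H v MM φ)).card * 2 ^ (8 * p.Lam) ≤ (Psi p H v0).card

/-- PP3.  `S` and `D` nonempty; LB3 with `mu t` as in PP2, `R = B`,
`y = 8 B (|S| + |D|) Lam`; `|NbS i S ∩ XA| ≤ q |S|` (`card_NbS_XA_le`).  Union over `(S, D)`: a
subset of the sum type `(P × A) ⊕ V`, `ub_sets`. -/
def PP3_stmt : Prop := ∀ (p : Par) (P O A V : Type) [Fintype P] [DecidableEq P] [Fintype O]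
  [DecidableEq O] [Fintype A] [DecidableEq A] [AddCommGroup A] [Fintype V] [DecidableEq V]
  (H : Host P O p.q) (v : O → A) (v0 : V),
  Fintype.card A = p.B → Fintype.card V = p.N →
  ((Psi p H v0).filter (fun φ => ¬ P3 p H v φ)).card * 2 ^ (8 * p.Lam) ≤ (Psi p H v0).card

/-- PP4.  LB3 with `J` = types of `lin L ∩ Gam z ∩ XA` (at most `q / c^6`), `mu = 1`, `R = 1`,
`y = rho / (2c)`. -/
def PP4_stmt : Prop := ∀ (p : Par) (P O A V : Type) [Fintype P] [DecidableEq P] [Fintype O]
  [DecidableEq O] [Fintype A] [DecidableEq A] [AddCommGroup A] [Fintype V] [DecidableEq V]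
  (H : Host P O p.q) (v : O → A) (T : SimpleGraph V) (MM : Finset (Finset V)) (v0 : V),
  Fintype.card A = p.B → TSp p T MM → H3 p H v →
  ((Psi p H v0).filter (fun φ => ¬ P4 p H v MM φ)).card * 2 ^ (8 * p.Lam) ≤ (Psi p H v0).card

/-- PP4c.  As PP4 with H3c, `y = q rho / (2c)`. -/
def PP4c_stmt : Prop := ∀ (p : Par) (P O A V : Type) [Fintype P] [DecidableEq P] [Fintype O]
  [DecidableEq O] [Fintype A] [DecidableEq A] [AddCommGroup A] [Fintype V] [DecidableEq V]
  (H : Host P O p.q) (v : O → A) (T : SimpleGraph V) (MM : Finset (Finset V)) (v0 : V),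
  Fintype.card A = p.B → TSp p T MM → H3 p H v →
  ((Psi p H v0).filter (fun φ => ¬ P4' p H v MM φ)).card * 2 ^ (8 * p.Lam) ≤ (Psi p H v0).card

/-- PP5.  Fixed balanced `φ` with P1, random `v`.  For `S ⊆ XA` with `FInd`: a type with a
T-adjacent partner in `S` has exactly one point in `S` (`col_unique`).  `I` = set of flags
`(t, l)`, `t` the type of a point of `S`, such that some point of `S` of another type `t'` on `l`
has a T-adjacent label.  The ordered T-adjacent pairs are at most `|I| 3 rho` (P1 for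
`Z = nb T (φ t)`).  So if P5 fails for `S` then `|I| > c |S| / 2`.  For `(t, l) ∈ I`, `l ∉ fixL`
choose a partner: equation `v (orb t l) + v (orb t' l) = a + a'`, own orbit `orb t l`, own flags
distinct, the flags with `l ∈ fixL` are at most `3 |S|`.  `I`, the points and the partners
depend on `S, φ` only.  VS3 with `m ≥ c |S| / 100`; union by `ub_sets`. -/
def PP5_stmt : Prop := ∀ (p : Par) (P O A V : Type) [Fintype P] [DecidableEq P] [Fintype O]
  [DecidableEq O] [Fintype A] [DecidableEq A] [AddCommGroup A] [Fintype V] [DecidableEq V]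
  (H : Host P O p.q) (T : SimpleGraph V) (MM : Finset (Finset V)) (φ : P → V),
  Fintype.card A = p.B → (∀ a : A, a + a = 0) → TSp p T MM → P1 p H T MM φ →
  ((Om A H.TT).filter (fun v => ¬ P5 p H v T φ)).card * 2 ^ (8 * p.Lam) ≤ (Om A H.TT).card

end Pool.Agent.helper24.TG
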