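import Pool.Agent.helper24.TG.S2
import Pool.Agent.helper24.TG.Basic2

set_option linter.all false
set_option autoImplicit false

/-!
# Statements, third wave (MP_ce98d8_co): containers for the slices, rough structure
-/

namespace Pool.Agent.helper24.TG

open Finset Classical
open Pool.Agent.helper11.Tight (nb eo mem_nb)

/-- CT2 (common container, section 7.2 of the proof text).  CT1 for `rel x y := y ∈ Nb H v i x`,
`i = false, true`, `W0 = p.W0`, `D = 10^5 B q`, `k = fH` (`sub_one_pow_lt`,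
`card (P × A) ≤ 2^Lam`), gives families `F_i` of at most `2^(Lam fH + 1)` sets of size
`≤ W0 + fH ≤ 2 W0`.  `WW` = intersections of `XA` with unions of five members of
`F_false ∪ F_true`.  In one half (copies with the same `hf`) order the copies: `P_j` = union of
the slices up to `j`, `R_j` = union of the later ones; `P_j, R_j` have no `Nb false` pair.  Take
the first `j` with `P_j` in no member: then `R_j` is in a member and the union of the earlier
slices is in a member.  So in each half all slices but one are in the union of two members; the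
two remaining slices have no `Nb true` pair, so one of them is in a member of `F_true`. -/
def CT2_stmt : Prop := ∀ (p : Par) (P O A : Type) [Fintype P] [DecidableEq P] [Fintype O]
  [DecidableEq O] [Fintype A] [DecidableEq A] [AddCommGroup A] (H : Host P O p.q) (v : O → A),
  Fintype.card A = p.B → H6 p H v →
  ∃ WW : Finset (Finset (P × A)), WW.card ≤ 2 ^ (6 * p.Lam * p.fH) ∧
    (∀ W ∈ WW, W ⊆ XA A H ∧ W.card ≤ 10 * p.W0) ∧
    ∀ S : Fin p.C → Finset (P × A), (∀ j, S j ⊆ XA A H) →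
      (∀ j j', j ≠ j' → ∀ x ∈ S j, ∀ y ∈ S j', y ∉ Nb H v (p.hf j != p.hf j') x) →
      ∃ c0, ∃ W ∈ WW, ∀ j, j ≠ c0 → S j ⊆ W

/-- RG1x (deterministic).  CT4 with `X = P × A`, `t = tau d`, `k = fb = (c La)(2 Lam)`.  For a
pair `f` whose first component has distinct first coordinates, the allowed set is
`G = {(x, u) : x ∈ W, u ∈ f.2, or at least c members (x', u') of f.1 have T.Adj u' u and
x is collinear with the x' of all members (x', u') of f.1 with T.Adj u' u}` (H1: at most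
`2 c^2 q` such `x` for every `u`).  For `Sg = {(x, φ x.1) : x ∈ S}` independence (`FInd`) gives
the second case. -/
def RG1x_stmt : Prop := ∀ (p : Par) (P O A V : Type) [Fintype P] [DecidableEq P] [Fintype O]
  [DecidableEq O] [Fintype A] [DecidableEq A] [AddCommGroup A] [Fintype V] [DecidableEq V]
  (H : Host P O p.q) (v : O → A) (T : SimpleGraph V) (MM : Finset (Finset V)),
  Fintype.card A = p.B → TSp p T MM → H1 p H v → ∀ W ⊆ XA A H,
  ∃ GG : Finset (Finset ((P × A) × V)), GG.card ≤ 2 ^ (3 * p.Lam * p.fb) ∧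
    (∀ G ∈ GG, G.card ≤ p.tau * p.d * W.card + 2 * p.c ^ 2 * p.q * p.N ∧
      ∀ e ∈ G, e.1 ∈ W) ∧
    ∀ (φ : P → V) (S : Finset (P × A)), S ⊆ W → (∀ x ∈ S, ∀ y ∈ S, x.1 = y.1 → x = y) →
      FInd H v T φ S → ∃ G ∈ GG, S.card ≤ p.fb + (S.filter (fun x => (x, φ x.1) ∈ G)).card

/-- RG1y (probability for one allowed set).  Union over the subsets `Y'` of `G` with `k` elements
and distinct types; LB1 with the pattern `g x.1 = u` for `(x, u) ∈ Y'`. -/
def RG1y_stmt : Prop := ∀ (p : Par) (P O A V : Type) [Fintype P] [DecidableEq P] [Fintype O]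
  [DecidableEq O] [Fintype A] [DecidableEq A] [AddCommGroup A] [Fintype V] [DecidableEq V]
  (H : Host P O p.q) (v0 : V), Fintype.card V = p.N →
  ∀ (G : Finset ((P × A) × V)) (k : ℕ), (∀ e ∈ G, e.1 ∈ XA A H) → 2 * k ≤ p.q ^ 2 →
  (((Psi p H v0).filter (fun φ => ∃ Y : Finset (P × A),
    (∀ x ∈ Y, ∀ y ∈ Y, x.1 = y.1 → x = y) ∧ Y.card = k ∧ ∀ x ∈ Y, (x, φ x.1) ∈ G)).card : ℝ) *
      (p.N : ℝ) ^ k ≤
    (G.card).choose k * (Psi p H v0).card * Real.exp (2 * (k : ℝ) ^ 2 / (p.q : ℝ) ^ 2)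

/-- RG1a.  From RG1x and RG1y: `3 |G| / (k N) ≤ 123 c^(-5)` by N3, N7' (`10 W0 = 10 c^2 B q sq`),
`choose_mul_pow_le`, `exp (2 k^2 / q^2) ≤ e^k`, `2^(3 Lam fb) ≤ 2^k` by N4. -/
def RG1a_stmt : Prop := ∀ (p : Par) (P O A V : Type) [Fintype P] [DecidableEq P] [Fintype O]
  [DecidableEq O] [Fintype A] [DecidableEq A] [AddCommGroup A] [Fintype V] [DecidableEq V]
  (H : Host P O p.q) (v : O → A) (T : SimpleGraph V) (MM : Finset (Finset V)) (v0 : V),
  Fintype.card A = p.B → TSp p T MM → H1 p H v → ∀ W ⊆ XA A H, W.card ≤ 10 * p.W0 →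
  ∀ k : ℕ, p.B * p.q ≤ 4 * p.c ^ p.x1 * k → 2 * k ≤ p.q ^ 2 →
  ((Psi p H v0).filter (fun φ => ∃ S ⊆ W, (∀ x ∈ S, ∀ y ∈ S, x.1 = y.1 → x = y) ∧
    FInd H v T φ S ∧ k + p.fb ≤ S.card)).card * 2 ^ (2 * k) ≤ (Psi p H v0).card

/-- RG1b.  If every point of the independent set `S` has a partner of the same type in `S`, then
the labels of the types of `S` are T-independent (a point is collinear with at most one point of a
type), so they are in a member `Z` of the family of CT3 (`t = tau d`, `al = d`, `k = fT`;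
`|Z| ≤ (tau + 1) d ≤ 2 tau d`, `(N+1)^fT ≤ 2^(2 Lam fT)` members); LB3 with `mu t` = number of
points of `W` over `t`, `R = B`: `2 mean ≤ Y / 2` by N3, and `2 Lam fT ≤ Y / (8 B)` by N4. -/
def RG1b_stmt : Prop := ∀ (p : Par) (P O A V : Type) [Fintype P] [DecidableEq P] [Fintype O]
  [DecidableEq O] [Fintype A] [DecidableEq A] [AddCommGroup A] [Fintype V] [DecidableEq V]
  (H : Host P O p.q) (v : O → A) (T : SimpleGraph V) (MM : Finset (Finset V)) (v0 : V),
  Fintype.card A = p.B → TSp p T MM → ∀ W ⊆ XA A H, W.card ≤ 10 * p.W0 →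
  ∀ Y k : ℕ, p.B * p.q ≤ 2 * p.c ^ p.x1 * Y → 4 * p.B * k ≤ Y →
  ((Psi p H v0).filter (fun φ => ∃ S ⊆ W, (∀ x ∈ S, ∃ y ∈ S, x.1 = y.1 ∧ x ≠ y) ∧
    FInd H v T φ S ∧ Y ≤ S.card)).card * 2 ^ k ≤ (Psi p H v0).card

/-- RG1.  Split `S` in the points with unique type and the others: RG1a with `k ≥ Y/4 - 1`
(`fb ≤ Y/8` by N4), RG1b with `Y/2`. -/
def RG1_stmt : Prop := ∀ (p : Par) (P O A V : Type) [Fintype P] [DecidableEq P] [Fintype O]
  [DecidableEq O] [Fintype A] [DecidableEq A] [AddCommGroup A] [Fintype V] [DecidableEq V]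
  (H : Host P O p.q) (v : O → A) (T : SimpleGraph V) (MM : Finset (Finset V)) (v0 : V),
  Fintype.card A = p.B → TSp p T MM → H1 p H v → ∀ W ⊆ XA A H, W.card ≤ 10 * p.W0 →
  ∀ Y k : ℕ, p.B * p.q ≤ p.c ^ p.x1 * Y → Y ≤ p.q ^ 2 → 16 * p.B * k ≤ Y →
  ((Psi p H v0).filter (fun φ => ∃ S ⊆ W, FInd H v T φ S ∧ Y ≤ S.card)).card * 2 ^ k ≤
    (Psi p H v0).card

/-- RG2 (section 7.6).  With `WW` of CT2: (i) for every `W ∈ WW` and every copy no independent
subset of `W` has `≥ Y1 := c^2 B^2 q` elements (RG1 with `k = c^2 B q / 16`, `prod_one`, union over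
`WW`: `6 Lam fH + 5 Lam ≤ c^2 B q / 32`); (ii) for every `W ∈ WW` fewer than
`b1 := B c^(x1+2)` copies have an independent subset of `W` with `≥ m1` elements, `m1` the least
integer with `B q ≤ c^x1 m1` (RG1 with `k ≥ q / (16 c^x1) - 1`, `prod_bad`,
`choose C b1 ≤ 2^(Lam b1)`).  Then `c0, W` from CT2 and
`sum_{j ≠ c0} |S j| ≤ C m1 + b1 c^2 B^2 q ≤ k / c^x0` by `C N ≤ 2 c^3 q d`, `x1 = x0 + 4`, N2,
N7', `k ≥ (B-1) w d`. -/
def RG2_stmt : Prop := ∀ (p : Par) (P O A V : Type) [Fintype P] [DecidableEq P] [Fintype O]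
  [DecidableEq O] [Fintype A] [DecidableEq A] [AddCommGroup A] [Fintype V] [DecidableEq V]
  (H : Host P O p.q) (v : O → A) (T : SimpleGraph V) (MM : Finset (Finset V)) (v0 : V),
  Fintype.card A = p.B → TSp p T MM → H1 p H v → H6 p H v →
  ((Fintype.piFinset (fun _ : Fin p.C => Psi p H v0)).filter (fun φ =>
    ¬ Rough p H v T φ)).card * 2 ^ (4 * p.Lam) ≤ (Psi p H v0).card ^ p.C

/-! ### tools for the fine properties -/

/-- QI (independent types).  LB6 and QC2: fraction `≤ 2^k E^f1 E^(-k) exp (2 k^2/q^2)`,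
`E ≥ (cB)^100`. -/
def QI_stmt : Prop := ∀ (p : Par) (P O V : Type) [Fintype P] [DecidableEq P] [Fintype O]
  [DecidableEq O] [Fintype V] [DecidableEq V] (H : Host P O p.q) (T : SimpleGraph V)
  (MM : Finset (Finset V)) (v0 : V), TSp p T MM → ∀ J ⊆ PA H, 8 * p.f1 ≤ J.card →
  4 * J.card ≤ p.q ^ 2 →
  ((Psi p H v0).filter (fun φ => ∀ t ∈ J, ∀ t' ∈ J, ¬ T.Adj (φ t) (φ t'))).card *
    p.E ^ (J.card / 2) ≤ (Psi p H v0).card

/-- QP (pair lemma).  Patterns on the types of `A1` and `A2` (enumerate, LB6).  Either for some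
`A' ⊆ A1`, `2 |A'| ≥ a`, at least `N / E` labels are not adjacent to the labels of `A'`
(QC1 for `A'`; at most `2^a 2^a N^a E^(f1 - a/2)` label vectors of `A1`), or every `y ∈ A2`
with `2 |A1 \ Gam y| ≥ a` has its label in a set of fewer than `N / E` labels, namely those not
adjacent to the labels of `A1 \ Gam y`: `(N/E)^(a - c) N^c`.  Fraction
`≤ exp (8 a^2 / q^2) (4^a E^(f1 - a/2) + E^(c - a))`. -/
def QP_stmt : Prop := ∀ (p : Par) (P O A V : Type) [Fintype P] [DecidableEq P] [Fintype O]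
  [DecidableEq O] [Fintype A] [DecidableEq A] [AddCommGroup A] [Fintype V] [DecidableEq V]
  (H : Host P O p.q) (v : O → A) (T : SimpleGraph V) (MM : Finset (Finset V)) (v0 : V),
  Fintype.card A = p.B → TSp p T MM → ∀ (A1 A2 : Finset (P × A)) (a : ℕ), A1 ⊆ XA A H →
  A2 ⊆ XA A H → A1.card = a → A2.card = a → Disjoint A1 A2 →
  (∀ x ∈ A1 ∪ A2, ∀ y ∈ A1 ∪ A2, x.1 = y.1 → x = y) →
  (A2.filter (fun y => 2 * (A1 \ Gam H v y).card < a)).card ≤ p.c →
  16 * p.f1 ≤ a → 8 * p.c ≤ a → 16 * a ≤ p.q ^ 2 →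
  ((Psi p H v0).filter (fun φ => ∀ x ∈ A1, ∀ y ∈ A2, T.Adj (φ x.1) (φ y.1) → col H v x y)).card *
    p.E ^ (a / 4) ≤ (Psi p H v0).card

/-- the label vectors on `k` points such that some half of them has fewer than `h` neighbours -/
noncomputable def BadU {V : Type} [Fintype V] [DecidableEq V] (T : SimpleGraph V) (k h : ℕ) :
    Finset (Fin k → V) :=
  Finset.univ.filter (fun u => ∃ I : Finset (Fin k), k ≤ 2 * I.card ∧
    (Finset.univ.filter (fun x : V => ∃ i ∈ I, T.Adj (u i) x)).card < h)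

/-- QA1.  Union over `I` (at most `2^k`), QC3 for the vectors on `I` with `a = k / 4`:
`2^k' N^a (2h)^(k'-a) N^(k-k')`, `k' - a ≥ k/4`. -/
def QA1_stmt : Prop := ∀ (p : Par) (V : Type) [Fintype V] [DecidableEq V] (T : SimpleGraph V)
  (MM : Finset (Finset V)), TSp p T MM → ∀ k h : ℕ, 2 * h ≤ p.N → 8 * h ≤ k * p.d →
  (BadU T k h).card ^ 4 * p.N ^ k ≤ 256 ^ k * p.N ^ (4 * k) * (2 * h) ^ k

/-- QA2.  The same with QC1, `h = N - N / E` (natural division). -/
def QA2_stmt : Prop := ∀ (p : Par) (V : Type) [Fintype V] [DecidableEq V] (T : SimpleGraph V)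
  (MM : Finset (Finset V)), TSp p T MM → ∀ k : ℕ,
  (BadU T k (p.N - p.N / p.E)).card ^ 2 * p.E ^ k ≤ 16 ^ k * p.N ^ (2 * k) * p.E ^ (2 * p.f1)

/-- QW (counting).  Choose a set `D` of exactly `s` coordinates that contains all `i` with
`w i ∈ Y i`: `choose g s ≤ (g+1)^s` choices, the other coordinates have `≤ N - h` values. -/
def QW_stmt : Prop := ∀ (V : Type) [Fintype V] [DecidableEq V] (g s h : ℕ)
  (Y : Fin g → Finset V), s ≤ g → (∀ i, h ≤ (Y i).card) →
  ((Finset.univ : Finset (Fin g → V)).filter (fun w =>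
    (Finset.univ.filter (fun i => w i ∈ Y i)).card < s)).card ≤
      (g + 1) ^ s * Fintype.card V ^ s * (Fintype.card V - h) ^ (g - s)

/-- QN (deterministic).  The `u ∈ Nb i z ∩ XA` (`q` points, `z` proper) with type outside the types
of `A1` (loses at most `|A1| ≤ q / c^4`) and `2 |A1 \ Gam u| ≥ |A1|` (H3: every `y ∈ A1`, not on
`Nb i z`, is collinear with at most `q / c^6` points of `Nb i z`; double counting loses at most
`2 q / c^6`). -/
def QN_stmt : Prop := ∀ (p : Par) (P O A : Type) [Fintype P] [DecidableEq P] [Fintype O]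
  [DecidableEq O] [Fintype A] [DecidableEq A] [AddCommGroup A] (H : Host P O p.q) (v : O → A),
  Fintype.card A = p.B → H3 p H v → ∀ (z : P × A) (i : Bool) (A1 : Finset (P × A)),
  Proper H z → A1 ⊆ XA A H → Disjoint A1 (Nb H v i z) → p.c ^ 4 * A1.card ≤ p.q →
  3 * p.q ≤ 4 * ((Nb H v i z ∩ XA A H).filter (fun u => (∀ y ∈ A1, y.1 ≠ u.1) ∧
    A1.card ≤ 2 * (A1 \ Gam H v u).card)).card

/-- QX (few conflicts).  Let `G` be the set of QN, `|G| ≥ 3q/4`, `k = |A1|`.  A point `u ∈ G` is in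
`conf i z A1` iff its label is in `N_T (labels of A1 \ Gam u)`.  LB6 for an enumeration of the
types of `A1` and of `G` (`k + |G| ≤ 2 q`, `exp (8)`): bad patterns: the label vector of `A1` is in
`BadU T k h`, or it is not and fewer than `s` of the `u ∈ G` have label in their set
(`≥ h` labels): QW. -/
def QX_stmt : Prop := ∀ (p : Par) (P O A V : Type) [Fintype P] [DecidableEq P] [Fintype O]
  [DecidableEq O] [Fintype A] [DecidableEq A] [AddCommGroup A] [Fintype V] [DecidableEq V]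
  (H : Host P O p.q) (v : O → A) (T : SimpleGraph V) (v0 : V),
  Fintype.card A = p.B → Fintype.card V = p.N → H3 p H v →
  ∀ (z : P × A) (i : Bool) (A1 : Finset (P × A)) (h s : ℕ), Proper H z → A1 ⊆ XA A H →
  Disjoint A1 (Nb H v i z) → (∀ x ∈ A1, ∀ y ∈ A1, x.1 = y.1 → x = y) →
  p.c ^ 4 * A1.card ≤ p.q → h ≤ p.N → 4 * s ≤ p.q →
  (((Psi p H v0).filter (fun φ => (conf p H v T φ i z A1).card < s)).card : ℝ) *
      (p.N : ℝ) ^ A1.card ≤
    (Psi p H v0).card * Real.exp 8 * ((BadU T A1.card h).card + (p.N : ℝ) ^ A1.card *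
      ((p.q : ℝ) + 1) ^ s * (((p.N : ℝ) - h) / p.N) ^ (p.q / 2))

end Pool.Agent.helper24.TG
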