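import Pool.Agent.helper24.TG.Props

set_option linter.all false
set_option autoImplicit false

/-!
# The three parts of the step theorem (MP_ce98d8_co)
-/

namespace Pool.Agent.helper24.TG

open Finset Classical
open Pool.Agent.helper11.Tight (nb eo mem_nb)

/-- Core (sections 9, 10): exactness and stability, deterministic -/
def Core_stmt : Prop := ∀ (p : Par) (P O A V : Type) [Fintype P] [DecidableEq P] [Fintype O]
  [DecidableEq O] [Fintype A] [DecidableEq A] [AddCommGroup A] [Fintype V] [DecidableEq V]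
  (H : Host P O p.q) (v : O → A) (T : SimpleGraph V) (MM : Finset (Finset V))
  (φ : Fin p.C → P → V), Fintype.card A = p.B → (∀ a : A, a + a = 0) → TSp p T MM →
  HPr p H v → MPr p H v T MM φ → ∀ S : Fin p.C → Finset (P × A), Ind p H v T φ S →
  ∃ (z : P × A) (c0 : Fin p.C), ∃ M ∈ MM, Proper H z ∧
    ∑ j, (S j \ model p H v φ z c0 M j).card + (3 * p.K + 3 + p.c ^ 4) * ∑ j, (S j).card ≤
      (3 * p.K + 3 + p.c ^ 4) * p.k

/-- Exist (sections 3, 4, 5, 7, 8): there are voltages and labellings with all properties -/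
def Exist_stmt : Prop := ∀ (p : Par) (P O A V : Type) [Fintype P] [DecidableEq P] [Fintype O]
  [DecidableEq O] [Fintype A] [DecidableEq A] [AddCommGroup A] [Fintype V] [DecidableEq V]
  (H : Host P O p.q) (T : SimpleGraph V) (MM : Finset (Finset V)),
  Fintype.card A = p.B → (∀ a : A, a + a = 0) → TSp p T MM →
  ∃ (v : O → A) (φ : Fin p.C → P → V), HPr p H v ∧ MPr p H v T MM φ

/-- Graph (sections 6, 11): the new graph.  Vertices: pairs of an affine point and a copy. -/
def Graph_stmt : Prop := ∀ (p : Par) (P O A V : Type) [Fintype P] [DecidableEq P] [Fintype O]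
  [DecidableEq O] [Fintype A] [DecidableEq A] [AddCommGroup A] [Fintype V] [DecidableEq V]
  (H : Host P O p.q) (v : O → A) (T : SimpleGraph V) (MM : Finset (Finset V))
  (φ : Fin p.C → P → V), Fintype.card A = p.B → (∀ a : A, a + a = 0) → TSp p T MM →
  HPr p H v → MPr p H v T MM φ →
  (∀ S : Fin p.C → Finset (P × A), Ind p H v T φ S →
    ∃ (z : P × A) (c0 : Fin p.C), ∃ M ∈ MM, Proper H z ∧
      ∑ j, (S j \ model p H v φ z c0 M j).card + (3 * p.K + 3 + p.c ^ 4) * ∑ j, (S j).card ≤
        (3 * p.K + 3 + p.c ^ 4) * p.k) →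
  ∀ E1, 8 * E1 ≤ p.C → 2 * p.c ^ 2 * E1 ≤ p.sq →
    State (2 * p.B * p.q ^ 2 * p.C * p.m) (p.B * p.q ^ 2 * p.C) p.k
      (3 * p.K + 3 + p.c ^ 4) E1 (p.c ^ 2 * p.B) 3 (2 * p.k)

end Pool.Agent.helper24.TG
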