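import Pool.Agent.helper24.TG.S3
import Pool.Agent.helper24.TG.S9

set_option linter.all false
set_option autoImplicit false

/-!
# Statements, last wave (MP_ce98d8_co): the fine properties and the existence
-/

namespace Pool.Agent.helper24.TG

open Finset Classical
open Pool.Agent.helper11.Tight (nb eo mem_nb)

section defs

variable {P O A V : Type} [Fintype P] [DecidableEq P] [Fintype O] [DecidableEq O]
  [Fintype A] [DecidableEq A] [AddCommGroup A] [Fintype V] [DecidableEq V]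

/-- many types with several points in an independent set -/
def MultEv (p : Par) (H : Host P O p.q) (v : O → A) (T : SimpleGraph V) (φ : P → V)
    (E0 : Finset (P × A)) (k : ℕ) : Prop :=
  ∃ S ⊆ E0, (∀ x ∈ S, ∃ y ∈ S, x.1 = y.1 ∧ x ≠ y) ∧ FInd H v T φ S ∧ p.B * k ≤ S.card

/-- two large sets of distinct types, mostly not collinear, without conflict -/
def PairEv (p : Par) (H : Host P O p.q) (v : O → A) (T : SimpleGraph V) (φ : P → V)
    (E0 : Finset (P × A)) (a : ℕ) : Prop :=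
  ∃ A1 ⊆ E0, ∃ A2 ⊆ E0, A1.card = a ∧ A2.card = a ∧ Disjoint A1 A2 ∧
    (∀ x ∈ A1 ∪ A2, ∀ y ∈ A1 ∪ A2, x.1 = y.1 → x = y) ∧
    (A2.filter (fun y => 2 * (A1 \ Gam H v y).card < a)).card ≤ p.c ∧
    ∀ x ∈ A1, ∀ y ∈ A2, T.Adj (φ x.1) (φ y.1) → col H v x y

/-- a bad copy for the conflict property -/
def BadC (p : Par) (H : Host P O p.q) (v : O → A) (T : SimpleGraph V) (φ : P → V)
    (i : Bool) (z : P × A) (E' : Finset (P × A)) : Prop :=
  ∃ S, S ⊆ E' ∧ S.Nonempty ∧ E'.card ≤ 64 * p.c ^ 3 * S.card ∧ p.c ^ 4 * S.card ≤ p.q ∧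
    (conf p H v T φ i z S).card < 4 * S.card

end defs

/-- QI2.  If the points of `S` all have a partner of the same type and `S` is independent, then the
types of `S` have T-independent labels (`col_unique`), and there are at least `|S| / B ≥ k` types.
Union over the `k`-subsets of the types of `E0`, QI. -/
def QI2_stmt : Prop := ∀ (p : Par) (P O A V : Type) [Fintype P] [DecidableEq P] [Fintype O]
  [DecidableEq O] [Fintype A] [DecidableEq A] [AddCommGroup A] [Fintype V] [DecidableEq V]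
  (H : Host P O p.q) (v : O → A) (T : SimpleGraph V) (MM : Finset (Finset V)) (v0 : V),
  Fintype.card A = p.B → TSp p T MM → ∀ E0 ⊆ XA A H, ∀ k : ℕ, 8 * p.f1 ≤ k → 4 * k ≤ p.q ^ 2 →
  ((Psi p H v0).filter (fun φ => MultEv p H v T φ E0 k)).card * p.E ^ (k / 2) ≤
    (E0.card).choose k * (Psi p H v0).card

/-- QP2.  Union over the pairs `(A1, A2)`, QP. -/
def QP2_stmt : Prop := ∀ (p : Par) (P O A V : Type) [Fintype P] [DecidableEq P] [Fintype O]
  [DecidableEq O] [Fintype A] [DecidableEq A] [AddCommGroup A] [Fintype V] [DecidableEq V]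
  (H : Host P O p.q) (v : O → A) (T : SimpleGraph V) (MM : Finset (Finset V)) (v0 : V),
  Fintype.card A = p.B → TSp p T MM → ∀ E0 ⊆ XA A H, ∀ a : ℕ, 16 * p.f1 ≤ a → 8 * p.c ≤ a →
  16 * a ≤ p.q ^ 2 →
  ((Psi p H v0).filter (fun φ => PairEv p H v T φ E0 a)).card * p.E ^ (a / 4) ≤
    (E0.card).choose a ^ 2 * (Psi p H v0).card

/-- QD2 (deterministic).  `S = S1 ∪ S2`, `S2` = points with a partner of the same type: `|S2| <
B k2 ≤ c^2 q / 2`.  If `|S1| ≥ 2 a`, take disjoint `A1, A2 ⊆ S1`; `|A1 ∩ lin L| ≤ q + 1 ≤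
|A1| / (128 c)`, so by H2 for `A1` fewer than `c` points `y ∈ A2` (distinct types) have
`4 |Gam y ∩ A1| ≥ |A1|`, the others have `2 |A1 \ Gam y| ≥ a`. -/
def QD2_stmt : Prop := ∀ (p : Par) (P O A V : Type) [Fintype P] [DecidableEq P] [Fintype O]
  [DecidableEq O] [Fintype A] [DecidableEq A] [AddCommGroup A] [Fintype V] [DecidableEq V]
  (H : Host P O p.q) (v : O → A) (T : SimpleGraph V) (φ : P → V),
  Fintype.card A = p.B → H2 p H v → ∀ E0 ⊆ XA A H,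
  ¬ MultEv p H v T φ E0 (p.c ^ 2 * p.q / (2 * p.B)) → ¬ PairEv p H v T φ E0 (p.c ^ 2 * p.q / 4) →
  ∀ S ⊆ E0, FInd H v T φ S → S.card < p.c ^ 2 * p.q

/-- QB2.  From QD2, QI2 (`choose (q B) k2 ≤ (3 q B / k2)^k2 ≤ (c B)^(2 k2)`,
`E^(k2/2) ≥ (c B)^(49 k2)`), QP2 (`choose (q B) a ^2 ≤ (c B)^(2 a)`, `E^(a/4) ≥ (cB)^(24 a)`);
`(c B)^(20 k2) ≥ 2^(k+1)` because `c B ≥ 2^4000`. -/
def QB2_stmt : Prop := ∀ (p : Par) (P O A V : Type) [Fintype P] [DecidableEq P] [Fintype O]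
  [DecidableEq O] [Fintype A] [DecidableEq A] [AddCommGroup A] [Fintype V] [DecidableEq V]
  (H : Host P O p.q) (v : O → A) (T : SimpleGraph V) (MM : Finset (Finset V)) (v0 : V),
  Fintype.card A = p.B → TSp p T MM → H2 p H v → ∀ E0 ⊆ XA A H, E0.card ≤ p.q * p.B →
  ∀ k : ℕ, p.B * k ≤ p.c ^ 2 * p.q →
  ((Psi p H v0).filter (fun φ => ∃ S, S ⊆ E0 ∧ FInd H v T φ S ∧ p.c ^ 2 * p.q ≤ S.card)).card *
    2 ^ k ≤ (Psi p H v0).card

/-- Q2f.  QB2 with `k = c^2 q / B` (natural division), `prod_bad` with `b = B^2 + 1`,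
`choose C b ≤ 2^(Lam b)`, union over the `E0` (`card_small_sets`: at most `2^(Lam q B)`). -/
def Q2f_stmt : Prop := ∀ (p : Par) (P O A V : Type) [Fintype P] [DecidableEq P] [Fintype O]
  [DecidableEq O] [Fintype A] [DecidableEq A] [AddCommGroup A] [Fintype V] [DecidableEq V]
  (H : Host P O p.q) (v : O → A) (T : SimpleGraph V) (MM : Finset (Finset V)) (v0 : V),
  Fintype.card A = p.B → TSp p T MM → H2 p H v →
  ((Fintype.piFinset (fun _ : Fin p.C => Psi p H v0)).filter (fun φ =>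
    ¬ Q2 p H v T φ)).card * 2 ^ (4 * p.Lam) ≤ (Psi p H v0).card ^ p.C

/-- QD3 (deterministic).  `S` independent, `8 |S| ≥ q`; `S = S1 ∪ S2` as in QD2,
`|S2| < B k3 ≤ q / (4 c^4)`; `S' ⊆ S1` with `2 a2` elements, `a2 = q / 32 + 1`.  If
`128 c |S' ∩ lin L| ≤ |S'|` for all `L`: split `S'` in halves, H2 for `S'` gives the second pair
event.  So some `L` has `|S' ∩ lin L| ≥ q / (2048 c) ≥ a1 = q / (8 c^4)`: `A1` in it; if
`|S1 \ lin L| ≥ a1` take `A2` in it: by H3 `|A1 ∩ Gam y| ≤ q / c^6 ≤ a1 / 2` for `y ∉ lin L`: the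
first pair event.  Hence `c^4 |S \ lin L| ≤ q`. -/
def QD3_stmt : Prop := ∀ (p : Par) (P O A V : Type) [Fintype P] [DecidableEq P] [Fintype O]
  [DecidableEq O] [Fintype A] [DecidableEq A] [AddCommGroup A] [Fintype V] [DecidableEq V]
  (H : Host P O p.q) (v : O → A) (T : SimpleGraph V) (φ : P → V),
  Fintype.card A = p.B → H2 p H v → H3 p H v → ∀ E0 ⊆ XA A H,
  ¬ MultEv p H v T φ E0 (p.q / (4 * p.c ^ 4 * p.B)) →
  ¬ PairEv p H v T φ E0 (p.q / (8 * p.c ^ 4)) → ¬ PairEv p H v T φ E0 (p.q / 32 + 1) →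
  GoodC p H v T φ E0

/-- QB3.  From QD3, QI2, QP2: `choose (c^6 q) k3 ≤ (3 c^6 q / k3)^k3 ≤ (24 c^10 B)^k3` and so
on. -/
def QB3_stmt : Prop := ∀ (p : Par) (P O A V : Type) [Fintype P] [DecidableEq P] [Fintype O]
  [DecidableEq O] [Fintype A] [DecidableEq A] [AddCommGroup A] [Fintype V] [DecidableEq V]
  (H : Host P O p.q) (v : O → A) (T : SimpleGraph V) (MM : Finset (Finset V)) (v0 : V),
  Fintype.card A = p.B → TSp p T MM → H2 p H v → H3 p H v → ∀ E0 ⊆ XA A H,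
  E0.card ≤ p.c ^ 6 * p.q → ∀ k : ℕ, p.c ^ 4 * p.B * k ≤ p.q →
  ((Psi p H v0).filter (fun φ => ¬ GoodC p H v T φ E0)).card * 2 ^ k ≤ (Psi p H v0).card

/-- Q3f.  QB3 with `k = q / (c^4 B)`, `prod_bad` with `b = c^12 B + 1`, union over `E0`
(at most `2^(Lam c^6 q)`): `c^12 B (q / (c^4 B)) ≥ c^8 q / 2`. -/
def Q3f_stmt : Prop := ∀ (p : Par) (P O A V : Type) [Fintype P] [DecidableEq P] [Fintype O]
  [DecidableEq O] [Fintype A] [DecidableEq A] [AddCommGroup A] [Fintype V] [DecidableEq V]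
  (H : Host P O p.q) (v : O → A) (T : SimpleGraph V) (MM : Finset (Finset V)) (v0 : V),
  Fintype.card A = p.B → TSp p T MM → H2 p H v → H3 p H v →
  ((Fintype.piFinset (fun _ : Fin p.C => Psi p H v0)).filter (fun φ =>
    ¬ Q3 p H v T φ)).card * 2 ^ (4 * p.Lam) ≤ (Psi p H v0).card ^ p.C

/-- QS (small sets).  `k = |A1|`, `h = k d / 8` (natural division, `≥ k d / 16`), `s = 4 B k`.
QX and QA1: `(|BadU| / N^k)^4 ≤ (512 h / N)^k ≤ (64 k d / N)^k ≤ (64 c^(-64) B^(-16))^k`,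
`(1 - h/N)^(q/2) ≤ exp (- k rho / 40)`, `(q+1)^(4 B k) ≤ 2^(4 B k Lam)`, `rho ≥ (c B)^100`,
`2 e^8 ≤ c^(1/2)`: use `c ≥ 10^6` and powers. -/
def QS_stmt : Prop := ∀ (p : Par) (P O A V : Type) [Fintype P] [DecidableEq P] [Fintype O]
  [DecidableEq O] [Fintype A] [DecidableEq A] [AddCommGroup A] [Fintype V] [DecidableEq V]
  (H : Host P O p.q) (v : O → A) (T : SimpleGraph V) (MM : Finset (Finset V)) (v0 : V),
  Fintype.card A = p.B → TSp p T MM → H3 p H v →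
  ∀ (z : P × A) (i : Bool) (A1 : Finset (P × A)), Proper H z → A1 ⊆ XA A H →
  Disjoint A1 (Nb H v i z) → (∀ x ∈ A1, ∀ y ∈ A1, x.1 = y.1 → x = y) → 1 ≤ A1.card →
  p.c ^ 4 * A1.card ≤ p.q → A1.card * (p.c ^ 64 * p.B ^ 16) * p.d ≤ p.N →
  ((Psi p H v0).filter (fun φ => (conf p H v T φ i z A1).card < 4 * p.B * A1.card)).card *
    (p.c ^ 15 * p.B ^ 4) ^ A1.card ≤ (Psi p H v0).card

/-- QM (medium sets).  `h = N / (c^65 B^16)` (natural division), `s = 4 B k`; `8 h ≤ k d` because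
`N < k c^64 B^16 d`. -/
def QM_stmt : Prop := ∀ (p : Par) (P O A V : Type) [Fintype P] [DecidableEq P] [Fintype O]
  [DecidableEq O] [Fintype A] [DecidableEq A] [AddCommGroup A] [Fintype V] [DecidableEq V]
  (H : Host P O p.q) (v : O → A) (T : SimpleGraph V) (MM : Finset (Finset V)) (v0 : V),
  Fintype.card A = p.B → TSp p T MM → H3 p H v →
  ∀ (z : P × A) (i : Bool) (A1 : Finset (P × A)), Proper H z → A1 ⊆ XA A H →
  Disjoint A1 (Nb H v i z) → (∀ x ∈ A1, ∀ y ∈ A1, x.1 = y.1 → x = y) → 1 ≤ A1.card →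
  p.c ^ 4 * A1.card ≤ p.q → p.N < A1.card * (p.c ^ 64 * p.B ^ 16) * p.d →
  A1.card * (p.c ^ 66 * p.B ^ 17) ≤ p.q →
  ((Psi p H v0).filter (fun φ => (conf p H v T φ i z A1).card < 4 * p.B * A1.card)).card *
    (p.c ^ 15 * p.B ^ 4) ^ A1.card ≤ (Psi p H v0).card

/-- QL (large sets).  `h = N - N / E`, `s` = least integer with `4 q ≤ c^4 s`; QA2 with
`16 f1 ≤ k`. -/
def QL_stmt : Prop := ∀ (p : Par) (P O A V : Type) [Fintype P] [DecidableEq P] [Fintype O]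
  [DecidableEq O] [Fintype A] [DecidableEq A] [AddCommGroup A] [Fintype V] [DecidableEq V]
  (H : Host P O p.q) (v : O → A) (T : SimpleGraph V) (MM : Finset (Finset V)) (v0 : V),
  Fintype.card A = p.B → TSp p T MM → H3 p H v →
  ∀ (z : P × A) (i : Bool) (A1 : Finset (P × A)), Proper H z → A1 ⊆ XA A H →
  Disjoint A1 (Nb H v i z) → (∀ x ∈ A1, ∀ y ∈ A1, x.1 = y.1 → x = y) → 1 ≤ A1.card →
  p.c ^ 4 * A1.card ≤ p.q → p.q < A1.card * (p.c ^ 66 * p.B ^ 17) →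
  ((Psi p H v0).filter (fun φ => p.c ^ 4 * (conf p H v T φ i z A1).card < 4 * p.q)).card *
    (p.c ^ 15 * p.B ^ 4) ^ A1.card ≤ (Psi p H v0).card

/-- QB4.  If `φ` is bad for `E'` by `S`, choose one point of every type of `S`: `A1`,
`k = |A1| ≥ |S| / B ≥ |E'| / (64 c^3 B)`, so `k ≥ k0`, `conf A1 ⊆ conf S`, hence
`|conf A1| < 4 |S| ≤ 4 B k` and `c^4 |conf A1| < 4 q`.  Union over `A1 ⊆ E'`:
`choose |E'| k ≤ (3 |E'| / k)^k ≤ (192 c^3 B)^k`; QS, QM, QL; geometric series in `k ≥ k0`. -/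
def QB4_stmt : Prop := ∀ (p : Par) (P O A V : Type) [Fintype P] [DecidableEq P] [Fintype O]
  [DecidableEq O] [Fintype A] [DecidableEq A] [AddCommGroup A] [Fintype V] [DecidableEq V]
  (H : Host P O p.q) (v : O → A) (T : SimpleGraph V) (MM : Finset (Finset V)) (v0 : V),
  Fintype.card A = p.B → TSp p T MM → H3 p H v →
  ∀ (z : P × A) (i : Bool) (E' : Finset (P × A)), Proper H z → E' ⊆ XA A H →
  Disjoint E' (Nb H v i z) → ∀ k0 : ℕ, 1 ≤ k0 → (k0 = 1 ∨ 64 * p.c ^ 3 * p.B * (k0 - 1) < E'.card) →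
  ((Psi p H v0).filter (fun φ => BadC p H v T φ i z E')).card * (p.c ^ 8 * p.B ^ 2) ^ k0 ≤
    (Psi p H v0).card

/-- Q4f.  For fixed `z, i` and `E'` nonempty, `k0` = least integer with
`|E'| ≤ 64 c^3 B k0`; `b` = least integer with `64 b > rho`; `prod_bad` with
`K = (c^8 B^2)^k0`, `choose C b ≤ (3 C / b)^b ≤ (384 c^3)^b`; then
`(384 c^3)^b (c^8 B^2)^(-b k0) ≤ (c^4 B)^(-b k0)`, `b k0 ≥ (rho / 128) (1 + |E'| / (64 c^3 B))`,
`rho ≥ (c B)^100`; union over `z, i` and `E'` (`ub_sets`). -/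
def Q4f_stmt : Prop := ∀ (p : Par) (P O A V : Type) [Fintype P] [DecidableEq P] [Fintype O]
  [DecidableEq O] [Fintype A] [DecidableEq A] [AddCommGroup A] [Fintype V] [DecidableEq V]
  (H : Host P O p.q) (v : O → A) (T : SimpleGraph V) (MM : Finset (Finset V)) (v0 : V),
  Fintype.card A = p.B → TSp p T MM → H3 p H v →
  ((Fintype.piFinset (fun _ : Fin p.C => Psi p H v0)).filter (fun φ =>
    ¬ Q4 p H v T φ)).card * 2 ^ (4 * p.Lam) ≤ (Psi p H v0).card ^ p.C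

/- EXI: `Exist_stmt` of `S9.lean` from VS7, LB5, HP1, HP2, HP3, HP4, HP6, PP1, PP2, PP3, PP4, PP4c,
PP5, RG2, Q2f, Q3f, Q4f: count the pairs `(v, φ)` in `Om × piFinset Psi` that fail: `¬ H_i`:
`5 * 2^(-10 Lam)`; for `v` with all `H_i`: `¬ P_i (φ j)` for some `j`: `5 C 2^(-8 Lam)`
(`prod_one`), `¬ Rough, Q2, Q3, Q4`: `4 * 2^(-4 Lam)`; for `φ` with all `P1 (φ j)`: `¬ P5`:
`C 2^(-8 Lam)`; the sum is less than one. -/

end Pool.Agent.helper24.TG
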